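import Pool.Agent.Q84.WH.Basic
import Pool.Agent.TH774.MK.Avg

/-!
# The radial part of a function: average over the orthogonal group
-/

set_option autoImplicit false

open MeasureTheory Set Filter Topology
open scoped RealInnerProductSpace

namespace Pool.Agent.Q84.WH

open Pool.Agent.Results.MP_b62b68_gt.NoSymmetrization (O haarO col)
open Pool.Agent.TH774.MK (act actE act_mul act_apply norm_act inner_act exists_col act_single)

variable {n : ℕ}

/-- the action as a continuous linear map -/
noncomputable def AL (g : O n) : E n →L[ℝ] E n := Matrix.toEuclideanCLM (𝕜 := ℝ) g.1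

theorem AL_apply (g : O n) (x : E n) : AL g x = act g x := by
  ext i
  rfl

theorem AL_cont : Continuous (AL : O n → E n →L[ℝ] E n) := by
  let L : Matrix (Fin n) (Fin n) ℝ →ₗ[ℝ] (E n →L[ℝ] E n) :=
    { toFun := fun M => Matrix.toEuclideanCLM (𝕜 := ℝ) M
      map_add' := fun a b => map_add _ a b
      map_smul' := fun c a => map_smul (Matrix.toEuclideanCLM (n := Fin n) (𝕜 := ℝ)) c a }
  have h : Continuous L := L.continuous_of_finiteDimensional
  exact h.comp continuous_subtype_val

theorem norm_AL (g : O n) (x : E n) : ‖AL g x‖ = ‖x‖ := by rw [AL_apply, norm_act]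

theorem inner_AL (g : O n) (x y : E n) : ⟪AL g x, AL g y⟫ = ⟪x, y⟫ := by
  rw [AL_apply, AL_apply, inner_act]

theorem opnorm_AL (g : O n) : ‖AL g‖ ≤ 1 := by
  refine ContinuousLinearMap.opNorm_le_bound _ zero_le_one fun x => ?_
  rw [norm_AL, one_mul]

theorem AL_mul (g h : O n) (x : E n) : AL (g * h) x = AL g (AL h x) := by
  rw [AL_apply, AL_apply, AL_apply, act_mul]

theorem AL_one (x : E n) : AL (1 : O n) x = x := by
  unfold AL
  simp

theorem AL_joint : Continuous fun p : E n × O n => AL p.2 p.1 :=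
  (AL_cont.comp continuous_snd).clm_apply continuous_fst

/-- the average over the orthogonal group -/
noncomputable def av (u : E n → ℝ) (x : E n) : ℝ := ∫ g, u (AL g x) ∂(haarO n)

theorem av_inv (u : E n → ℝ) (k : O n) (x : E n) : av u (AL k x) = av u x := by
  unfold av
  have h : ∀ g : O n, u (AL g (AL k x)) = (fun g => u (AL g x)) (g * k) := by
    intro g
    simp only [AL_mul]
  simp_rw [h]
  exact integral_mul_right_eq_self (fun g => u (AL g x)) k

theorem exists_rot (k : Fin n) {x y : E n} (h : ‖x‖ = ‖y‖) : ∃ g : O n, AL g x = y := by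
  by_cases hx : x = 0
  · refine ⟨1, ?_⟩
    have hy : y = 0 := by rw [hx, norm_zero] at h; exact norm_eq_zero.1 h.symm
    rw [hx, hy]; simp
  have hxn : 0 < ‖x‖ := norm_pos_iff.2 hx
  obtain ⟨h1, e1⟩ := exists_col k (‖x‖⁻¹ • x) (by
    rw [norm_smul, norm_inv, norm_norm, inv_mul_cancel₀ hxn.ne'])
  obtain ⟨h2, e2⟩ := exists_col k (‖x‖⁻¹ • y) (by
    rw [norm_smul, norm_inv, norm_norm, ← h, inv_mul_cancel₀ hxn.ne'])
  rw [← act_single, ← AL_apply] at e1 e2
  refine ⟨h2 * h1⁻¹, ?_⟩
  have e3 : AL (h1⁻¹ : O n) (‖x‖⁻¹ • x) = EuclideanSpace.single k 1 := by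
    rw [← e1, ← AL_mul, inv_mul_cancel, AL_one]
  have e4 : AL (h2 * h1⁻¹) (‖x‖⁻¹ • x) = ‖x‖⁻¹ • y := by
    rw [AL_mul, e3, e2]
  rw [map_smul] at e4
  have e5 := congrArg (fun z => ‖x‖ • z) e4
  simpa [smul_smul, hxn.ne'] using e5

theorem av_radial (u : E n → ℝ) (x y : E n) (h : ‖x‖ = ‖y‖) : av u x = av u y := by
  rcases Nat.eq_zero_or_pos n with h0 | h0
  · subst h0
    rw [Subsingleton.elim x y]
  · obtain ⟨g, hg⟩ := exists_rot ⟨0, h0⟩ h
    rw [← hg, av_inv]

theorem av_cs {u : E n → ℝ} (hc : HasCompactSupport u) : HasCompactSupport (av u) := by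
  obtain ⟨R, hR⟩ : ∃ R : ℝ, tsupport u ⊆ Metric.closedBall 0 R :=
    hc.isBounded.subset_closedBall 0
  refine HasCompactSupport.intro (isCompact_closedBall (0 : E n) R) fun x hx => ?_
  unfold av
  have : ∀ g : O n, u (AL g x) = 0 := by
    intro g
    refine image_eq_zero_of_notMem_tsupport fun h => hx ?_
    have := hR h
    rw [mem_closedBall_zero_iff, norm_AL] at this
    rwa [mem_closedBall_zero_iff]
  simp_rw [this]
  simp

theorem av_fd {u : E n → ℝ} (hu : ContDiff ℝ 1 u) (hc : HasCompactSupport u) (x : E n) :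
    HasFDerivAt (av u) (∫ g, (fderiv ℝ u (AL g x)).comp (AL g) ∂(haarO n)) x := by
  have hd : Continuous (fderiv ℝ u) := hu.continuous_fderiv (by norm_num)
  have hdc : HasCompactSupport (fderiv ℝ u) := hc.fderiv ℝ
  obtain ⟨M, hM⟩ := hdc.exists_bound_of_continuous hd
  have hjc : ∀ y : E n, Continuous fun g : O n => AL g y := fun y =>
    AL_cont.clm_apply continuous_const
  have hF' : Continuous fun g : O n => (fderiv ℝ u (AL g x)).comp (AL g) :=
    (hd.comp (hjc x)).clm_comp AL_cont
  have hM0 : 0 ≤ M := (norm_nonneg _).trans (hM 0)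
  change HasFDerivAt (fun y => ∫ g, u (AL g y) ∂(haarO n)) _ x
  refine hasFDerivAt_integral_of_dominated_of_fderiv_le (𝕜 := ℝ) (s := Set.univ)
    (F := fun y g => u (AL g y)) (F' := fun y g => (fderiv ℝ u (AL g y)).comp (AL g))
    (bound := fun _ => M) Filter.univ_mem ?_ ?_ ?_ ?_ ?_ ?_
  · exact Eventually.of_forall fun y => (hu.continuous.comp (hjc y)).aestronglyMeasurable
  · exact (hu.continuous.comp (hjc x)).integrable_of_hasCompactSupport
      (HasCompactSupport.of_compactSpace _)
  · exact hF'.aestronglyMeasurable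
  · refine Eventually.of_forall fun g y _ => ?_
    refine (ContinuousLinearMap.opNorm_comp_le _ _).trans ?_
    calc ‖fderiv ℝ u (AL g y)‖ * ‖AL g‖ ≤ M * 1 :=
          mul_le_mul (hM _) (opnorm_AL g) (norm_nonneg _) hM0
      _ = M := mul_one M
  · exact integrable_const _
  · refine Eventually.of_forall fun g y _ => ?_
    have h1 : HasFDerivAt u (fderiv ℝ u (AL g y)) (AL g y) :=
      (hu.differentiable (by norm_num) _).hasFDerivAt
    exact h1.comp y (AL g).hasFDerivAt

theorem av_c1 {u : E n → ℝ} (hu : ContDiff ℝ 1 u) (hc : HasCompactSupport u) :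
    ContDiff ℝ 1 (av u) := by
  rw [contDiff_one_iff_fderiv]
  refine ⟨fun x => (av_fd hu hc x).differentiableAt, ?_⟩
  have h : fderiv ℝ (av u) = fun x => ∫ g, (fderiv ℝ u (AL g x)).comp (AL g) ∂(haarO n) := by
    ext1 x
    exact (av_fd hu hc x).fderiv
  rw [h]
  have hd : Continuous (fderiv ℝ u) := hu.continuous_fderiv (by norm_num)
  have hj : Continuous fun p : E n × O n => (fderiv ℝ u (AL p.2 p.1)).comp (AL p.2) :=
    (hd.comp AL_joint).clm_comp (AL_cont.comp continuous_snd)
  have := continuous_parametric_integral_of_continuous (μ := haarO n)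
    (f := fun x g => (fderiv ℝ u (AL g x)).comp (AL g)) hj (isCompact_univ (X := O n))
  simpa using this

theorem av_fd_apply {u : E n → ℝ} (hu : ContDiff ℝ 1 u) (hc : HasCompactSupport u) (x v : E n) :
    fderiv ℝ (av u) x v = ∫ g, fderiv ℝ u (AL g x) (AL g v) ∂(haarO n) := by
  rw [(av_fd hu hc x).fderiv]
  have hd : Continuous (fderiv ℝ u) := hu.continuous_fderiv (by norm_num)
  have hjc : ∀ y : E n, Continuous fun g : O n => AL g y := fun y =>
    AL_cont.clm_apply continuous_const
  have hF' : Continuous fun g : O n => (fderiv ℝ u (AL g x)).comp (AL g) :=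
    (hd.comp (hjc x)).clm_comp AL_cont
  rw [ContinuousLinearMap.integral_apply]
  · rfl
  · exact hF'.integrable_of_hasCompactSupport (HasCompactSupport.of_compactSpace _)

/-- integration against a radial function does not see the average -/
theorem int_av {K Ψ : E n → ℝ} (hK : Continuous K) (hKc : HasCompactSupport K)
    (hΨ : Continuous Ψ) (hr : ∀ x y, ‖x‖ = ‖y‖ → Ψ x = Ψ y) :
    ∫ x, Ψ x * av K x = ∫ x, Ψ x * K x := by
  obtain ⟨R, hR⟩ : ∃ R : ℝ, tsupport K ⊆ Metric.closedBall 0 R :=
    hKc.isBounded.subset_closedBall 0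
  have hint : Integrable (fun p : E n × O n => Ψ p.1 * K (AL p.2 p.1))
      ((volume : Measure (E n)).prod (haarO n)) := by
    have hcont : Continuous (fun p : E n × O n => Ψ p.1 * K (AL p.2 p.1)) :=
      (hΨ.comp continuous_fst).mul (hK.comp AL_joint)
    refine hcont.integrable_of_hasCompactSupport ?_
    refine HasCompactSupport.intro
      ((isCompact_closedBall (0 : E n) R).prod (isCompact_univ (X := O n))) fun p hp => ?_
    have : K (AL p.2 p.1) = 0 := by
      refine image_eq_zero_of_notMem_tsupport fun h => hp ?_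
      have := hR h
      rw [mem_closedBall_zero_iff, norm_AL] at this
      exact ⟨mem_closedBall_zero_iff.2 this, mem_univ _⟩
    rw [this, mul_zero]
  have e1 : ∀ x, Ψ x * av K x = ∫ g, Ψ x * K (AL g x) ∂(haarO n) := fun x =>
    (integral_const_mul _ _).symm
  simp_rw [e1]
  rw [integral_integral_swap (f := fun x g => Ψ x * K (AL g x)) hint]
  have e2 : ∀ g : O n, ∫ x, Ψ x * K (AL g x) = ∫ x, Ψ x * K x := by
    intro g
    have h1 : ∀ x, Ψ x * K (AL g x) = (fun y => Ψ y * K y) (actE g x) := by
      intro x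
      change _ = Ψ (act g x) * K (act g x)
      rw [← AL_apply, hr x (AL g x) (norm_AL g x).symm]
    simp_rw [h1]
    have hmp : MeasurePreserving (actE g) (volume : Measure (E n)) volume :=
      (actE g).measurePreserving
    exact hmp.integral_comp (actE g).toHomeomorph.measurableEmbedding (fun y => Ψ y * K y)
  simp_rw [e2]
  simp

theorem grad_apply (u : E n → ℝ) (x v : E n) : ⟪gradient u x, v⟫ = fderiv ℝ u x v := by
  unfold gradient
  rw [InnerProductSpace.toDual_symm_apply]

theorem grad_norm (u : E n → ℝ) (x : E n) : ‖gradient u x‖ = ‖fderiv ℝ u x‖ := by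
  unfold gradient
  exact LinearIsometryEquiv.norm_map _ _

theorem grad_cont {u : E n → ℝ} (hu : ContDiff ℝ 1 u) : Continuous (gradient u) := by
  unfold gradient
  exact (LinearIsometryEquiv.continuous _).comp (hu.continuous_fderiv (by norm_num))

/-- the gradient of a radial function is equivariant -/
theorem grad_equiv {U : E n → ℝ} (hU : ContDiff ℝ 1 U) (hr : ∀ x y, ‖x‖ = ‖y‖ → U x = U y)
    (g : O n) (x : E n) : AL g (gradient U x) = gradient U (AL g x) := by
  have h1 : ∀ v, fderiv ℝ U x v = fderiv ℝ U (AL g x) (AL g v) := by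
    intro v
    have e1 : HasFDerivAt U (fderiv ℝ U (AL g x)) (AL g x) :=
      (hU.differentiable (by norm_num) _).hasFDerivAt
    have e2 := e1.comp x (AL g).hasFDerivAt
    have e3 : (U ∘ AL g) = U := by
      ext y
      exact hr _ _ (norm_AL g y)
    rw [e3] at e2
    rw [e2.fderiv]
    rfl
  refine ext_inner_right ℝ fun v => ?_
  obtain ⟨v', hv'⟩ : ∃ v', AL g v' = v := ⟨AL g⁻¹ v, by rw [← AL_mul, mul_inv_cancel, AL_one]⟩
  rw [← hv', inner_AL, grad_apply, grad_apply, h1]

theorem grad_cross {u : E n → ℝ} (hu : ContDiff ℝ 1 u) (hc : HasCompactSupport u) (s : ℝ) :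
    ∫ x, hw x ^ (-s) * ‖gradient (av u) x‖ ^ 2 =
      ∫ x, hw x ^ (-s) * ⟪gradient u x, gradient (av u) x⟫ := by
  have hU := av_c1 hu hc
  set K : E n → ℝ := fun y => ⟪gradient u y, gradient (av u) y⟫ with hK
  have hKc : Continuous K := (grad_cont hu).inner (grad_cont hU)
  have hKs : HasCompactSupport K := by
    refine (hc.fderiv ℝ).mono' ?_
    intro x hx
    refine subset_tsupport _ ?_
    rw [Function.mem_support] at hx ⊢
    intro h0
    apply hx
    simp only [hK]
    rw [grad_apply, h0]; simp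
  have h1 : ∀ x, ‖gradient (av u) x‖ ^ 2 = av K x := by
    intro x
    rw [← real_inner_self_eq_norm_sq, grad_apply, av_fd_apply hu hc]
    refine integral_congr_ae (Eventually.of_forall fun g => ?_)
    simp only [hK]
    rw [grad_apply, grad_equiv hU (av_radial u)]
  simp_rw [h1]
  exact int_av hKc hKs (cont_hwr _) fun x y h => by simp only [hw, h]

end Pool.Agent.Q84.WH
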