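import Mathlib

/-!
# Weighted Hardy inequalities with the weight `(1 + |x|^2)^α`: the basic identity and Barta's bound
-/

set_option autoImplicit false

open MeasureTheory Set Filter Topology
open scoped RealInnerProductSpace

namespace Pool.Agent.Q84.WH

/-- Euclidean space of dimension `n`. -/
abbrev E (n : ℕ) : Type := EuclideanSpace ℝ (Fin n)

/-- the weight `1 + |x|^2` -/
noncomputable def hw {n : ℕ} (x : E n) : ℝ := 1 + ‖x‖ ^ 2

variable {n : ℕ}

theorem one_le_hw (x : E n) : 1 ≤ hw x := by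
  unfold hw; nlinarith [sq_nonneg ‖x‖]

theorem hw_pos (x : E n) : 0 < hw x := lt_of_lt_of_le one_pos (one_le_hw x)

theorem hw_ne (x : E n) : hw x ≠ 0 := (hw_pos x).ne'

theorem hw_fd (x : E n) : HasFDerivAt (fun y : E n => hw y) (2 • innerSL ℝ x) x := by
  have h := (hasStrictFDerivAt_norm_sq x).hasFDerivAt
  exact h.const_add 1

theorem contDiff_hw : ContDiff ℝ ⊤ (fun y : E n => hw y) := by
  unfold hw
  exact contDiff_const.add (contDiff_norm_sq ℝ)

theorem contDiff_hwr (a : ℝ) {m : WithTop ℕ∞} : ContDiff ℝ m (fun y : E n => hw y ^ a) := by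
  refine ContDiff.rpow_const_of_ne ?_ fun x => hw_ne x
  unfold hw
  exact contDiff_const.add (contDiff_norm_sq ℝ)

theorem cont_hwr (a : ℝ) : Continuous (fun y : E n => hw y ^ a) :=
  (contDiff_hwr (m := 1) a).continuous

theorem hwr_fd (a : ℝ) (x : E n) :
    HasFDerivAt (fun y : E n => hw y ^ a) ((a * hw x ^ (a - 1)) • (2 • innerSL ℝ x)) x :=
  (hw_fd x).rpow_const (Or.inl (hw_ne x))

theorem hwr_fderiv (a : ℝ) (x v : E n) :
    fderiv ℝ (fun y : E n => hw y ^ a) x v = 2 * a * hw x ^ (a - 1) * ⟪x, v⟫ := by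
  rw [(hwr_fd a x).fderiv]
  simp
  ring

theorem hw_mul (a : ℝ) (x : E n) : hw x ^ (a - 1) * hw x = hw x ^ a := by
  rw [← Real.rpow_add_one (hw_ne x)]; ring_nf

/-- Euler's identity, integrated -/
theorem euler {g : E n → ℝ} (hg : ContDiff ℝ 1 g) (hc : HasCompactSupport g) :
    ∫ x, fderiv ℝ g x x = -(n * ∫ x, g x) := by
  have hd : Continuous (fderiv ℝ g) := hg.continuous_fderiv (by norm_num)
  have hdc : HasCompactSupport (fderiv ℝ g) := hc.fderiv ℝ
  have hco : ∀ i : Fin n, Continuous (fun x : E n => x i) := fun i => by fun_prop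
  have hint : ∀ i : Fin n, Integrable (fun x : E n => x i *
      fderiv ℝ g x (EuclideanSpace.single i (1:ℝ))) := by
    intro i
    refine Continuous.integrable_of_hasCompactSupport ?_ ?_
    · exact (hco i).mul (hd.clm_apply continuous_const)
    · refine HasCompactSupport.mul_left ?_
      exact hdc.comp_left (g := fun L : E n →L[ℝ] ℝ => L (EuclideanSpace.single i (1:ℝ)))
        (by simp)
  have h1 : ∀ i : Fin n, ∫ x : E n, x i * fderiv ℝ g x (EuclideanSpace.single i (1:ℝ)) =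
      -∫ x, g x := by
    intro i
    have hfd : ∀ x : E n, HasFDerivAt (fun x : E n => x i)
        (EuclideanSpace.proj (𝕜 := ℝ) i : E n →L[ℝ] ℝ) x := fun x =>
      (EuclideanSpace.proj (𝕜 := ℝ) i : E n →L[ℝ] ℝ).hasFDerivAt
    have h2 : ∀ x : E n, fderiv ℝ (fun x : E n => x i) x (EuclideanSpace.single i (1:ℝ)) = 1 := by
      intro x
      rw [(hfd x).fderiv]
      simp
    have hgi : Integrable g := hg.continuous.integrable_of_hasCompactSupport hc
    have h3 := integral_mul_fderiv_eq_neg_fderiv_mul_of_integrable (μ := volume)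
      (f := fun x : E n => x i) (g := g) (v := EuclideanSpace.single i (1:ℝ))
      (by simp_rw [h2]; simpa using hgi) (hint i)
      (((hco i).mul hg.continuous).integrable_of_hasCompactSupport (hc.mul_left))
      (fun x _ => (hfd x).differentiableAt)
      (fun x _ => (hg.differentiable (by norm_num)) x)
    rw [h3]
    simp_rw [h2]
    simp
  have h4 : ∀ x : E n, fderiv ℝ g x x =
      ∑ i, x i * fderiv ℝ g x (EuclideanSpace.single i (1:ℝ)) := by
    intro x
    have hx : x = ∑ i, x i • EuclideanSpace.single i (1:ℝ) := by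
      ext j
      simp [Pi.single_apply]
    conv_lhs => rw [hx]
    rw [map_sum]
    have : (∑ i, x i • EuclideanSpace.single i (1:ℝ) : E n) = x := hx.symm
    rw [this]
    simp
  simp_rw [h4]
  rw [integral_finsetSum _ fun i _ => hint i]
  simp_rw [h1]
  simp

theorem fd_sq_le (L : E n →L[ℝ] ℝ) (x : E n) : (L x) ^ 2 ≤ ‖L‖ ^ 2 * ‖x‖ ^ 2 := by
  have h := L.le_opNorm x
  rw [← mul_pow, ← sq_abs (L x)]
  exact pow_le_pow_left₀ (abs_nonneg _) (by simpa using h) 2

theorem int_mul {f : E n → ℝ} {w : E n → ℝ} (hw : Continuous w) (hf : Continuous f)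
    (hc : HasCompactSupport f) : Integrable (fun x => w x * f x) :=
  (hw.mul hf).integrable_of_hasCompactSupport hc.mul_left

theorem sq_supp {u : E n → ℝ} (hc : HasCompactSupport u) :
    HasCompactSupport (fun x => u x ^ 2) :=
  hc.comp_left (g := fun t : ℝ => t ^ 2) (by simp)

theorem nsq_supp {u : E n → ℝ} (hc : HasCompactSupport u) :
    HasCompactSupport (fun x => ‖fderiv ℝ u x‖ ^ 2) :=
  (hc.fderiv ℝ).comp_left (g := fun t : E n →L[ℝ] ℝ => ‖t‖ ^ 2) (by simp)

/-- the pointwise inequality behind Barta's method with the function `h ^ (-β)` -/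
theorem barta_alg (N u r h D α β c m : ℝ) (hr : 0 ≤ r) (hh : h = 1 + r ^ 2) (hN : 0 ≤ N)
    (hD : D ^ 2 ≤ N ^ 2 * r ^ 2) (h1 : c ≤ 2 * β * m)
    (h2 : c ≤ 2 * β * (m + 2 * α - 2 * β - 2)) :
    0 ≤ h ^ 2 * N ^ 2 + 2 * β * (m * u ^ 2 * h + 2 * u * D * h + 2 * (α - 1) * u ^ 2 * r ^ 2)
      - c * h * u ^ 2 := by
  have hDa : |D| ≤ N * r := abs_le_of_sq_le_sq (by rw [mul_pow]; exact hD) (by positivity)
  have hh0 : 0 < h := by rw [hh]; positivity
  have k1 : 0 ≤ h ^ 2 * N ^ 2 + 4 * β * u * D * h + 4 * β ^ 2 * u ^ 2 * r ^ 2 := by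
    have e1 : -(|β * u| * (N * r)) ≤ β * u * D := by
      have : |β * u * D| ≤ |β * u| * (N * r) := by
        rw [abs_mul]; exact mul_le_mul_of_nonneg_left hDa (abs_nonneg _)
      linarith [neg_abs_le (β * u * D)]
    have e2 : |β * u| ^ 2 = β ^ 2 * u ^ 2 := by rw [sq_abs]; ring
    nlinarith [sq_nonneg (h * N - 2 * |β * u| * r), mul_le_mul_of_nonneg_left e1 hh0.le]
  have k2 : 0 ≤ u ^ 2 * ((2 * β * m - c) + r ^ 2 * (2 * β * (m + 2 * α - 2 * β - 2) - c)) := by
    have := mul_nonneg (sq_nonneg r) (sub_nonneg.2 h2)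
    have := sub_nonneg.2 h1
    positivity
  rw [hh] at k1 ⊢
  nlinarith [k1, k2]

theorem barta (α β c : ℝ) (h1 : c ≤ 2 * β * n) (h2 : c ≤ 2 * β * (n + 2 * α - 2 * β - 2))
    {u : E n → ℝ} (hu : ContDiff ℝ 1 u) (hc : HasCompactSupport u) :
    c * ∫ x, hw x ^ (α - 1) * u x ^ 2 ≤ ∫ x, hw x ^ α * ‖fderiv ℝ u x‖ ^ 2 := by
  have hd : Continuous (fderiv ℝ u) := hu.continuous_fderiv (by norm_num)
  set g : E n → ℝ := fun x => hw x ^ (α - 1) * u x ^ 2 with hg
  have hgc : ContDiff ℝ 1 g := (contDiff_hwr (α - 1)).mul (hu.pow 2)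
  have hgs : HasCompactSupport g := (sq_supp hc).mul_left
  have hgi : Integrable g := hgc.continuous.integrable_of_hasCompactSupport hgs
  have he := euler hgc hgs
  have hgd : ∀ x, fderiv ℝ g x x = hw x ^ (α - 1) * (2 * u x * fderiv ℝ u x x) +
      u x ^ 2 * (2 * (α - 1) * hw x ^ (α - 1 - 1) * ‖x‖ ^ 2) := by
    intro x
    have e1 : HasFDerivAt u (fderiv ℝ u x) x := (hu.differentiable (by norm_num) x).hasFDerivAt
    have e2 : HasFDerivAt g _ x := (hwr_fd (α - 1) x).mul (e1.pow 2)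
    rw [e2.fderiv]
    simp only [ContinuousLinearMap.add_apply, ContinuousLinearMap.smul_apply, smul_eq_mul,
      innerSL_apply_apply, real_inner_self_eq_norm_sq, nsmul_eq_mul, Nat.cast_ofNat]
    ring
  have hgdi : Integrable (fun x => fderiv ℝ g x x) := by
    refine Continuous.integrable_of_hasCompactSupport ?_ ?_
    · exact (hgc.continuous_fderiv (by norm_num)).clm_apply continuous_id
    · refine (hgs.fderiv ℝ).mono' ?_
      intro x hx
      rw [Function.mem_support] at hx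
      refine subset_tsupport _ ?_
      rw [Function.mem_support]
      intro h0
      apply hx
      rw [h0]; simp
  have hEi : Integrable (fun x => hw x ^ α * ‖fderiv ℝ u x‖ ^ 2) :=
    int_mul (cont_hwr α) (hd.norm.pow 2) (nsq_supp hc)
  have key : 0 ≤ ∫ x, (hw x ^ α * ‖fderiv ℝ u x‖ ^ 2 + 2 * β * (n * g x + fderiv ℝ g x x)
      - c * g x) := by
    refine integral_nonneg fun x => ?_
    change 0 ≤ hw x ^ α * ‖fderiv ℝ u x‖ ^ 2 + 2 * β * (n * g x + fderiv ℝ g x x) - c * g x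
    have e0 := barta_alg ‖fderiv ℝ u x‖ (u x) ‖x‖ (hw x) (fderiv ℝ u x x) α β c n
      (norm_nonneg _) rfl (norm_nonneg _) (fd_sq_le _ x) h1 h2
    have e1 : hw x ^ (α - 1) = hw x ^ (α - 1 - 1) * hw x := (hw_mul (α - 1) x).symm
    have e2 : hw x ^ α = hw x ^ (α - 1 - 1) * hw x * hw x := by
      rw [← e1, hw_mul]
    rw [hgd x, hg]
    simp only
    rw [e2, e1]
    have e3 : 0 ≤ hw x ^ (α - 1 - 1) := Real.rpow_nonneg (hw_pos x).le _
    have e4 := mul_nonneg e3 e0
    nlinarith [e4]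
  have i1 : Integrable (fun x => (n : ℝ) * g x + fderiv ℝ g x x) := (hgi.const_mul _).add hgdi
  have i2 : Integrable (fun x => hw x ^ α * ‖fderiv ℝ u x‖ ^ 2 +
      2 * β * ((n : ℝ) * g x + fderiv ℝ g x x)) := hEi.add (i1.const_mul _)
  have j1 : ∫ x, ((n : ℝ) * g x + fderiv ℝ g x x) = 0 := by
    rw [integral_add (hgi.const_mul _) hgdi, integral_const_mul, he]; ring
  have j2 : ∫ x, (hw x ^ α * ‖fderiv ℝ u x‖ ^ 2 +
      2 * β * ((n : ℝ) * g x + fderiv ℝ g x x)) = ∫ x, hw x ^ α * ‖fderiv ℝ u x‖ ^ 2 := by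
    rw [integral_add hEi (i1.const_mul _), integral_const_mul, j1]; ring
  have j3 : ∫ x, (hw x ^ α * ‖fderiv ℝ u x‖ ^ 2 + 2 * β * (n * g x + fderiv ℝ g x x)
      - c * g x) = (∫ x, hw x ^ α * ‖fderiv ℝ u x‖ ^ 2) - c * ∫ x, g x := by
    rw [integral_sub i2 (hgi.const_mul _), j2, integral_const_mul]
  rw [j3] at key
  linarith

end Pool.Agent.Q84.WH
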