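import Pool.Agent.Q84.WH.Basic
import Pool.Agent.H212R2.KLS.R4

/-!
# Functions with vanishing Gaussian means: the constant `2 s`
-/

set_option autoImplicit false

open MeasureTheory Set Filter Topology
open scoped RealInnerProductSpace

namespace Pool.Agent.Q84.WH

variable {n : ℕ}

theorem gauss_cont (τ : ℝ) : Continuous fun x : E n => Real.exp (-(τ * ‖x‖ ^ 2)) := by fun_prop

theorem gauss_poinc (τ : ℝ) (hτ : 0 < τ) {w : E n → ℝ} (hw1 : ContDiff ℝ 1 w)
    (hws : HasCompactSupport w) (hz : ∫ x, w x * Real.exp (-(τ * ‖x‖ ^ 2)) = 0) :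
    ∫ x, w x ^ 2 * Real.exp (-(τ * ‖x‖ ^ 2)) ≤
      (2 * τ)⁻¹ * ∫ x, ‖fderiv ℝ w x‖ ^ 2 * Real.exp (-(τ * ‖x‖ ^ 2)) := by
  obtain ⟨R, hR⟩ : ∃ R : ℝ, tsupport w ⊆ Metric.closedBall 0 R :=
    hws.isBounded.subset_closedBall 0
  have hw0 : ∀ x, R < ‖x‖ → w x = 0 := by
    intro x hx
    refine image_eq_zero_of_notMem_tsupport fun h => ?_
    have := hR h
    rw [mem_closedBall_zero_iff] at this
    linarith
  have hd0 : ∀ x, R < ‖x‖ → fderiv ℝ w x = 0 := by
    intro x hx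
    refine image_eq_zero_of_notMem_tsupport fun h => ?_
    have := hR (tsupport_fderiv_subset ℝ h)
    rw [mem_closedBall_zero_iff] at this
    linarith
  classical
  set G : E n → ℝ := fun x => if ‖x‖ ≤ R then Real.exp (-(τ * ‖x‖ ^ 2)) else 0 with hG
  have hG0 : ∀ x, 0 ≤ G x := by
    intro x; simp only [hG]; split_ifs
    · positivity
    · exact le_rfl
  have hGm : Measurable G := by
    refine Measurable.ite ?_ (gauss_cont τ).measurable measurable_const
    exact measurableSet_le measurable_norm measurable_const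
  have hGb : ∃ B, ∀ x, G x ≤ B := by
    refine ⟨1, fun x => ?_⟩
    simp only [hG]; split_ifs
    · rw [Real.exp_le_one_iff]
      have := mul_nonneg hτ.le (sq_nonneg ‖x‖)
      linarith
    · exact zero_le_one
  have hGs : Pool.Agent.H212R2.KLS.Bdd G := by
    refine ⟨R, fun x hx => ?_⟩
    simp only [hG]; rw [if_neg (not_le.2 hx)]
  have hmid : ∀ x y, G x * G y ≤ (G ((1 / 2 : ℝ) • (x + y))) ^ 2 *
      Real.exp (-((2 * τ) / 4 * ‖x - y‖ ^ 2)) := by
    intro x y
    by_cases h1 : ‖x‖ ≤ R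
    · by_cases h2 : ‖y‖ ≤ R
      · have h3 : ‖(1 / 2 : ℝ) • (x + y)‖ ≤ R := by
          rw [norm_smul]
          have := norm_add_le x y
          have e : ‖(1 / 2 : ℝ)‖ = 1 / 2 := by norm_num
          rw [e]; linarith
        simp only [hG]
        rw [if_pos h1, if_pos h2, if_pos h3, ← Real.exp_add, ← Real.exp_nat_mul, ← Real.exp_add]
        apply le_of_eq
        congr 1
        have e1 : ‖(1 / 2 : ℝ) • (x + y)‖ ^ 2 = 1 / 4 * ‖x + y‖ ^ 2 := by
          rw [norm_smul, mul_pow]; norm_num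
        have e2 := parallelogram_law_with_norm ℝ x y
        rw [e1]
        push_cast
        nlinarith [e2]
      · have : G y = 0 := by simp only [hG]; rw [if_neg h2]
        rw [this, mul_zero]; positivity
    · have : G x = 0 := by simp only [hG]; rw [if_neg h1]
      rw [this, zero_mul]; positivity
  obtain ⟨c, hc⟩ := Pool.Agent.H212R2.KLS.poincare_of_strong (volume : Measure (E n)) G hG0 hGm hGb
    hGs (2 * τ) (by positivity) hmid w hw1
  obtain ⟨R', hR'⟩ := hGs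
  have I1 : ∀ {φ : E n → ℝ}, Continuous φ → Integrable (fun x => φ x * G x)
      (volume : Measure (E n)) :=
    fun hφ => Pool.Agent.H212R2.KLS.R4aux.intg hGm hG0 hGb hR' hφ
  have e1 : ∀ x, w x ^ 2 * Real.exp (-(τ * ‖x‖ ^ 2)) = w x ^ 2 * G x := by
    intro x
    by_cases h : ‖x‖ ≤ R
    · simp only [hG]; rw [if_pos h]
    · rw [hw0 x (not_le.1 h)]; simp
  have e2 : ∀ x, ‖fderiv ℝ w x‖ ^ 2 * Real.exp (-(τ * ‖x‖ ^ 2)) = ‖fderiv ℝ w x‖ ^ 2 * G x := by
    intro x
    by_cases h : ‖x‖ ≤ R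
    · simp only [hG]; rw [if_pos h]
    · rw [hd0 x (not_le.1 h)]; simp
  have e3 : ∀ x, w x * Real.exp (-(τ * ‖x‖ ^ 2)) = w x * G x := by
    intro x
    by_cases h : ‖x‖ ≤ R
    · simp only [hG]; rw [if_pos h]
    · rw [hw0 x (not_le.1 h)]; simp
  simp_rw [e1, e2]
  simp_rw [e3] at hz
  refine le_trans ?_ hc
  have i1 := I1 (φ := fun x => w x ^ 2) (hw1.continuous.pow 2)
  have i2 := I1 hw1.continuous
  have i3 : Integrable G (volume : Measure (E n)) := by
    have := I1 (φ := fun _ => (1 : ℝ)) continuous_const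
    simpa using this
  have e4 : ∫ x, (w x - c) ^ 2 * G x = (∫ x, w x ^ 2 * G x) - 2 * c * (∫ x, w x * G x) +
      c ^ 2 * ∫ x, G x := by
    have i4 : Integrable (fun x => w x ^ 2 * G x - 2 * c * (w x * G x))
        (volume : Measure (E n)) := i1.sub (i2.const_mul _)
    rw [← integral_const_mul, ← integral_const_mul, ← integral_sub i1 (i2.const_mul _),
      ← integral_add i4 (i3.const_mul _)]
    refine integral_congr_ae (Eventually.of_forall fun x => ?_)
    simp only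
    ring
  rw [e4, hz]
  have : 0 ≤ ∫ x, G x := integral_nonneg hG0
  nlinarith [mul_nonneg (sq_nonneg c) this]

theorem mix_id (a : ℝ) (ha : 0 < a) {q : E n → ℝ} (hq : Continuous q) (hqs : HasCompactSupport q) :
    IntegrableOn (fun τ : ℝ => τ ^ (a - 1) * Real.exp (-τ) *
      ∫ x, q x * Real.exp (-(τ * ‖x‖ ^ 2))) (Ioi 0) ∧
    ∫ τ in Ioi (0:ℝ), τ ^ (a - 1) * Real.exp (-τ) * ∫ x, q x * Real.exp (-(τ * ‖x‖ ^ 2)) =
      Real.Gamma a * ∫ x, hw x ^ (-a) * q x := by
  have hqi : Integrable q := hq.integrable_of_hasCompactSupport hqs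
  have hτi : IntegrableOn (fun τ : ℝ => τ ^ (a - 1) * Real.exp (-τ)) (Ioi 0) := by
    have := Real.GammaIntegral_convergent ha
    exact this.congr_fun (fun τ _ => by ring) measurableSet_Ioi
  have hprod : Integrable (fun p : ℝ × E n => p.1 ^ (a - 1) * Real.exp (-p.1) *
      (q p.2 * Real.exp (-(p.1 * ‖p.2‖ ^ 2))))
      ((volume.restrict (Ioi (0:ℝ))).prod (volume : Measure (E n))) := by
    have h1 := hτi.mul_prod hqi.norm
    refine h1.mono ?_ ?_
    · have hm : Measurable (fun p : ℝ × E n => p.1 ^ (a - 1) * Real.exp (-p.1) *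
          (q p.2 * Real.exp (-(p.1 * ‖p.2‖ ^ 2)))) := by
        have hqm := hq.measurable
        fun_prop
      exact hm.aestronglyMeasurable
    · have hpos : ∀ᵐ p : ℝ × E n ∂((volume.restrict (Ioi (0:ℝ))).prod (volume : Measure (E n))),
          0 < p.1 := by
        have h2 : ∀ᵐ τ : ℝ ∂(volume.restrict (Ioi (0:ℝ))), 0 < τ :=
          ae_restrict_mem measurableSet_Ioi
        exact Measure.quasiMeasurePreserving_fst.ae h2
      filter_upwards [hpos] with p hp
      rw [norm_mul, norm_mul, norm_mul, norm_mul, norm_mul, norm_norm]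
      refine mul_le_mul_of_nonneg_left ?_ (by positivity)
      have h3 : ‖Real.exp (-(p.1 * ‖p.2‖ ^ 2))‖ ≤ 1 := by
        rw [Real.norm_of_nonneg (Real.exp_pos _).le, Real.exp_le_one_iff]
        have := mul_nonneg hp.le (sq_nonneg ‖p.2‖)
        linarith
      calc ‖q p.2‖ * ‖Real.exp (-(p.1 * ‖p.2‖ ^ 2))‖ ≤ ‖q p.2‖ * 1 :=
            mul_le_mul_of_nonneg_left h3 (norm_nonneg _)
        _ = _ := mul_one _
  have h1 := hprod.integral_prod_left
  have e1 : ∀ τ : ℝ, ∫ x, τ ^ (a - 1) * Real.exp (-τ) * (q x * Real.exp (-(τ * ‖x‖ ^ 2))) =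
      τ ^ (a - 1) * Real.exp (-τ) * ∫ x, q x * Real.exp (-(τ * ‖x‖ ^ 2)) := fun τ =>
    integral_const_mul _ _
  constructor
  · refine h1.congr (Eventually.of_forall fun τ => ?_)
    simp only
    exact e1 τ
  · simp_rw [← e1]
    rw [integral_integral_swap hprod]
    rw [← integral_const_mul]
    refine integral_congr_ae (Eventually.of_forall fun x => ?_)
    simp only
    have e2 : ∀ τ : ℝ, τ ^ (a - 1) * Real.exp (-τ) * (q x * Real.exp (-(τ * ‖x‖ ^ 2))) =
        q x * (τ ^ (a - 1) * Real.exp (-(hw x * τ))) := by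
      intro τ
      have : Real.exp (-(hw x * τ)) = Real.exp (-τ) * Real.exp (-(τ * ‖x‖ ^ 2)) := by
        rw [← Real.exp_add]; congr 1; unfold hw; ring
      rw [this]; ring
    simp_rw [e2]
    rw [integral_const_mul, Real.integral_rpow_mul_exp_neg_mul_Ioi ha (hw_pos x), one_div,
      Real.inv_rpow (hw_pos x).le, ← Real.rpow_neg (hw_pos x).le]
    ring

theorem mix (s : ℝ) (hs : 0 < s) {w : E n → ℝ} (hw1 : ContDiff ℝ 1 w) (hws : HasCompactSupport w)
    (hz : ∀ τ : ℝ, 0 < τ → ∫ x, w x * Real.exp (-(τ * ‖x‖ ^ 2)) = 0) :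
    2 * s * ∫ x, hw x ^ (-s - 1) * w x ^ 2 ≤ ∫ x, hw x ^ (-s) * ‖fderiv ℝ w x‖ ^ 2 := by
  obtain ⟨i1, e1⟩ := mix_id (s + 1) (by linarith) (q := fun x => w x ^ 2)
    (hw1.continuous.pow 2) (sq_supp hws)
  obtain ⟨i2, e2⟩ := mix_id s hs (q := fun x => ‖fderiv ℝ w x‖ ^ 2)
    ((hw1.continuous_fderiv (by norm_num)).norm.pow 2) (nsq_supp hws)
  have key : ∫ τ in Ioi (0:ℝ), τ ^ (s + 1 - 1) * Real.exp (-τ) *
      ∫ x, w x ^ 2 * Real.exp (-(τ * ‖x‖ ^ 2)) ≤ ∫ τ in Ioi (0:ℝ), 2⁻¹ * (τ ^ (s - 1) *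
      Real.exp (-τ) * ∫ x, ‖fderiv ℝ w x‖ ^ 2 * Real.exp (-(τ * ‖x‖ ^ 2))) := by
    refine setIntegral_mono_on i1 (i2.const_mul _) measurableSet_Ioi fun τ hτ => ?_
    have hτ0 : 0 < τ := hτ
    have h1 := gauss_poinc τ hτ0 hw1 hws (hz τ hτ0)
    have h2 : 0 ≤ τ ^ (s + 1 - 1) * Real.exp (-τ) := by positivity
    have h3 := mul_le_mul_of_nonneg_left h1 h2
    refine h3.trans (le_of_eq ?_)
    have h4 : τ ^ (s + 1 - 1) = τ ^ (s - 1) * τ := by
      rw [← Real.rpow_add_one hτ0.ne']; ring_nf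
    rw [h4]
    field_simp
  rw [e1, integral_const_mul, e2, Real.Gamma_add_one hs.ne'] at key
  have hG : 0 < Real.Gamma s := Real.Gamma_pos_of_pos hs
  have e3 : -(s + 1) = -s - 1 := by ring
  rw [e3] at key
  have h5 : Real.Gamma s * (2 * s * ∫ x, hw x ^ (-s - 1) * w x ^ 2) ≤
      Real.Gamma s * ∫ x, hw x ^ (-s) * ‖fderiv ℝ w x‖ ^ 2 := by
    linarith
  exact le_of_mul_le_mul_left h5 hG

end Pool.Agent.Q84.WH
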