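import Pool.Agent.Q84.WH.Rad
import Pool.Agent.Q84.WH.Gauss
import Pool.Agent.Q84.WH.Avg

/-!
# The lower bound under the orthogonality constraint
-/

set_option autoImplicit false

open MeasureTheory Set Filter Topology
open scoped RealInnerProductSpace

namespace Pool.Agent.Q84.WH

theorem lower_con (k : ℕ) (s b ρ C' C : ℝ) (hρ : 0 < ρ) (hb0 : 0 ≤ b) (hR : Ric k s b ρ C')
    (hs : (k : ℝ) - 1 < 2 * s) (hs0 : 0 < s) (hC1 : C ≤ C') (hC2 : C ≤ 2 * s) (hC0 : 0 ≤ C)
    {u : E (k + 1) → ℝ} (hu : ContDiff ℝ 1 u) (hc : HasCompactSupport u)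
    (hmean : ∫ x, hw x ^ (-s - 1) * u x = 0) :
    C * ∫ x, hw x ^ (-s - 1) * u x ^ 2 ≤ ∫ x, hw x ^ (-s) * ‖fderiv ℝ u x‖ ^ 2 := by
  set U : E (k + 1) → ℝ := av u with hU
  have hUc : ContDiff ℝ 1 U := av_c1 hu hc
  have hUs : HasCompactSupport U := av_cs hc
  have hUr : ∀ x y, ‖x‖ = ‖y‖ → U x = U y := av_radial u
  set w : E (k + 1) → ℝ := fun x => u x - U x with hw_def
  have hwc : ContDiff ℝ 1 w := hu.sub hUc
  have hws : HasCompactSupport w := hc.sub hUs
  obtain ⟨c, hcU⟩ := radial_ineq k s b ρ C' hρ hb0 hR hs hUc hUs hUr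
  have hz : ∀ τ : ℝ, 0 < τ → ∫ x, w x * Real.exp (-(τ * ‖x‖ ^ 2)) = 0 := by
    intro τ _
    have h1 := int_av hu.continuous hc (gauss_cont (n := k + 1) τ) fun x y h => by
      simp only [h]
    have i1 : Integrable (fun x : E (k + 1) => Real.exp (-(τ * ‖x‖ ^ 2)) * u x) :=
      int_mul (gauss_cont τ) hu.continuous hc
    have i2 : Integrable (fun x : E (k + 1) => Real.exp (-(τ * ‖x‖ ^ 2)) * U x) :=
      int_mul (gauss_cont τ) hUc.continuous hUs
    have h2 : ∫ x, w x * Real.exp (-(τ * ‖x‖ ^ 2)) =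
        (∫ x, Real.exp (-(τ * ‖x‖ ^ 2)) * u x) - ∫ x, Real.exp (-(τ * ‖x‖ ^ 2)) * U x := by
      rw [← integral_sub i1 i2]
      refine integral_congr_ae (Eventually.of_forall fun x => ?_)
      simp only [hw_def]; ring
    rw [h2, ← h1]
    simp [hU]
  have hJ2 := mix s hs0 hwc hws hz
  -- the integrals of the squares
  have hintw : Integrable (fun x : E (k + 1) => hw x ^ (-s - 1)) := by
    have := int_hw (n := k + 1) (s + 1) (by push_cast; linarith)
    refine this.congr (Eventually.of_forall fun x => ?_)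
    simp only
    congr 1
    ring
  have hΨ : Continuous fun x : E (k + 1) => hw x ^ (-s - 1) * (U x - c) :=
    (cont_hwr _).mul (hUc.continuous.sub continuous_const)
  have hcross := int_av hu.continuous hc hΨ fun x y h => by
    simp only [hw, h, hUr x y h]
  have a1 : Integrable (fun x => hw x ^ (-s - 1) * u x ^ 2) :=
    int_mul (cont_hwr _) (hu.continuous.pow 2) (sq_supp hc)
  have a2 : Integrable (fun x => hw x ^ (-s - 1) * u x) :=
    int_mul (cont_hwr _) hu.continuous hc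
  have a3 : Integrable (fun x => hw x ^ (-s - 1) * w x ^ 2) :=
    int_mul (cont_hwr _) (hwc.continuous.pow 2) (sq_supp hws)
  have a4 : Integrable (fun x => hw x ^ (-s - 1) * (U x - c) * u x) :=
    int_mul hΨ hu.continuous hc
  have a5 : Integrable (fun x => hw x ^ (-s - 1) * (U x - c) * U x) :=
    int_mul hΨ hUc.continuous hUs
  have a6 : Integrable (fun x => hw x ^ (-s - 1) * (U x - c) ^ 2) := by
    have h1 : Integrable (fun x => hw x ^ (-s - 1) * U x ^ 2) :=
      int_mul (cont_hwr _) (hUc.continuous.pow 2) (sq_supp hUs)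
    have h2 : Integrable (fun x => hw x ^ (-s - 1) * U x) :=
      int_mul (cont_hwr _) hUc.continuous hUs
    have h3 := (h1.sub (h2.const_mul (2 * c))).add (hintw.const_mul (c ^ 2))
    refine h3.congr (Eventually.of_forall fun x => ?_)
    simp only [Pi.add_apply, Pi.sub_apply]
    ring
  have hN : (∫ x, hw x ^ (-s - 1) * u x ^ 2) + c ^ 2 * ∫ x : E (k + 1), hw x ^ (-s - 1) =
      (∫ x, hw x ^ (-s - 1) * w x ^ 2) + ∫ x, hw x ^ (-s - 1) * (U x - c) ^ 2 := by
    have h1 : (∫ x, hw x ^ (-s - 1) * u x ^ 2) - 2 * c * (∫ x, hw x ^ (-s - 1) * u x) +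
        c ^ 2 * ∫ x : E (k + 1), hw x ^ (-s - 1) =
        ∫ x, hw x ^ (-s - 1) * (u x - c) ^ 2 := by
      have i1 : Integrable (fun x => hw x ^ (-s - 1) * u x ^ 2 -
          2 * c * (hw x ^ (-s - 1) * u x)) := a1.sub (a2.const_mul _)
      rw [← integral_const_mul, ← integral_const_mul, ← integral_sub a1 (a2.const_mul _),
        ← integral_add i1 (hintw.const_mul _)]
      refine integral_congr_ae (Eventually.of_forall fun x => ?_)
      simp only; ring
    have h2 : ∫ x, hw x ^ (-s - 1) * (u x - c) ^ 2 =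
        (∫ x, hw x ^ (-s - 1) * w x ^ 2) + (∫ x, hw x ^ (-s - 1) * (U x - c) ^ 2) +
        2 * ((∫ x, hw x ^ (-s - 1) * (U x - c) * u x) -
          ∫ x, hw x ^ (-s - 1) * (U x - c) * U x) := by
      have i1 : Integrable (fun x => hw x ^ (-s - 1) * (U x - c) * u x -
          hw x ^ (-s - 1) * (U x - c) * U x) := a4.sub a5
      have i2 : Integrable (fun x => hw x ^ (-s - 1) * w x ^ 2 +
          hw x ^ (-s - 1) * (U x - c) ^ 2) := a3.add a6
      rw [← integral_sub a4 a5, ← integral_const_mul, ← integral_add a3 a6,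
        ← integral_add i2 (i1.const_mul _)]
      refine integral_congr_ae (Eventually.of_forall fun x => ?_)
      simp only [hw_def]; ring
    rw [hmean] at h1
    rw [← hcross] at h2
    rw [← h1] at h2
    simp only [hU] at h2 ⊢
    linarith
  -- the energies
  have hg := grad_cross hu hc s
  have b1 : Integrable (fun x => hw x ^ (-s) * ‖gradient u x‖ ^ 2) := by
    simp_rw [grad_norm]
    exact int_mul (cont_hwr _) ((hu.continuous_fderiv (by norm_num)).norm.pow 2) (nsq_supp hc)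
  have b2 : Integrable (fun x => hw x ^ (-s) * ‖gradient U x‖ ^ 2) := by
    simp_rw [grad_norm]
    exact int_mul (cont_hwr _) ((hUc.continuous_fderiv (by norm_num)).norm.pow 2) (nsq_supp hUs)
  have b3 : Integrable (fun x => hw x ^ (-s) * ⟪gradient u x, gradient U x⟫) := by
    refine int_mul (cont_hwr _) ((grad_cont hu).inner (grad_cont hUc)) ?_
    refine (hc.fderiv ℝ).mono' ?_
    intro x hx
    refine subset_tsupport _ ?_
    rw [Function.mem_support] at hx ⊢
    intro h0
    apply hx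
    rw [grad_apply, h0]; simp
  have hgw : ∀ x, gradient w x = gradient u x - gradient U x := by
    intro x
    refine ext_inner_right ℝ fun v => ?_
    rw [inner_sub_left, grad_apply, grad_apply, grad_apply]
    have e1 : HasFDerivAt u (fderiv ℝ u x) x := (hu.differentiable (by norm_num) x).hasFDerivAt
    have e2 : HasFDerivAt U (fderiv ℝ U x) x := (hUc.differentiable (by norm_num) x).hasFDerivAt
    have e3 : HasFDerivAt w _ x := e1.sub e2
    rw [e3.fderiv]
    rfl
  have hE : ∫ x, hw x ^ (-s) * ‖fderiv ℝ w x‖ ^ 2 =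
      (∫ x, hw x ^ (-s) * ‖fderiv ℝ u x‖ ^ 2) - ∫ x, hw x ^ (-s) * ‖fderiv ℝ U x‖ ^ 2 := by
    simp_rw [← grad_norm]
    have h1 : ∫ x, hw x ^ (-s) * ‖gradient w x‖ ^ 2 =
        (∫ x, hw x ^ (-s) * ‖gradient u x‖ ^ 2) -
          2 * (∫ x, hw x ^ (-s) * ⟪gradient u x, gradient U x⟫) +
          ∫ x, hw x ^ (-s) * ‖gradient U x‖ ^ 2 := by
      have i1 : Integrable (fun x => hw x ^ (-s) * ‖gradient u x‖ ^ 2 -
          2 * (hw x ^ (-s) * ⟪gradient u x, gradient U x⟫)) := b1.sub (b3.const_mul _)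
      rw [← integral_const_mul, ← integral_sub b1 (b3.const_mul _), ← integral_add i1 b2]
      refine integral_congr_ae (Eventually.of_forall fun x => ?_)
      simp only
      rw [hgw, norm_sub_sq_real]
      ring
    rw [h1, ← hg]
    ring
  have p1 : 0 ≤ ∫ x, hw x ^ (-s - 1) * w x ^ 2 := integral_nonneg fun x =>
    mul_nonneg (Real.rpow_nonneg (hw_pos x).le _) (sq_nonneg _)
  have p2 : 0 ≤ ∫ x, hw x ^ (-s - 1) * (U x - c) ^ 2 := integral_nonneg fun x =>
    mul_nonneg (Real.rpow_nonneg (hw_pos x).le _) (sq_nonneg _)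
  have p3 : 0 ≤ c ^ 2 * ∫ x : E (k + 1), hw x ^ (-s - 1) := mul_nonneg (sq_nonneg _)
    (integral_nonneg fun x => Real.rpow_nonneg (hw_pos x).le _)
  have q1 := mul_le_mul_of_nonneg_right hC1 p2
  have q2 := mul_le_mul_of_nonneg_right hC2 p1
  rw [hE] at hJ2
  have q3 := mul_nonneg hC0 p3
  have q4 : C * (∫ x, hw x ^ (-s - 1) * u x ^ 2) = C * ((∫ x, hw x ^ (-s - 1) * w x ^ 2) +
    ∫ x, hw x ^ (-s - 1) * (U x - c) ^ 2) - C * (c ^ 2 * ∫ x : E (k + 1), hw x ^ (-s - 1)) := by
    rw [← hN]; ring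
  rw [q4]
  linarith

end Pool.Agent.Q84.WH
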