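import Pool.Agent.Q84.WH.Upper

/-!
# Upper bounds: the test functions `(1 + |x|^2)^a` and `x_1`
-/

set_option autoImplicit false

open MeasureTheory Set Filter Topology
open scoped RealInnerProductSpace ContDiff

namespace Pool.Agent.Q84.WH

/-- the integrals of the powers of the weight -/
noncomputable def J (n : ℕ) (a : ℝ) : ℝ := ∫ x : E n, hw x ^ (-a)

theorem J_pos {n : ℕ} {a : ℝ} (ha : (n : ℝ) < 2 * a) : 0 < J n a := by
  unfold J
  refine (integral_pos_iff_support_of_nonneg (fun x => Real.rpow_nonneg (hw_pos x).le _)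
    (int_hw a ha)).2 ?_
  have : Function.support (fun x : E n => hw x ^ (-a)) = univ := by
    ext x
    simp [(Real.rpow_pos_of_pos (hw_pos x) (-a)).ne']
  rw [this]
  exact Measure.measure_univ_pos.2 (NeZero.ne _)

theorem J_mono {n : ℕ} {a b : ℝ} (ha : (n : ℝ) < 2 * a) (hab : a ≤ b) : J n b ≤ J n a := by
  unfold J
  refine integral_mono (int_hw b (by linarith)) (int_hw a ha) fun x => ?_
  exact Real.rpow_le_rpow_of_exponent_le (one_le_hw x) (by linarith)

theorem J_rec (k : ℕ) (a : ℝ) (ha : (k : ℝ) + 1 < 2 * a) :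
    (2 * a - (k + 1)) * J (k + 1) a = 2 * a * J (k + 1) (a + 1) := by
  have hfr : Module.finrank ℝ (E (k + 1)) - 1 = k := by simp
  have hnt : Nontrivial (E (k + 1)) := by
    refine ⟨⟨EuclideanSpace.single 0 1, 0, fun h => ?_⟩⟩
    have := congrArg norm h
    simp at this
  have hH : ∀ r : ℝ, 0 < 1 + r ^ 2 := fun r => by positivity
  have hi : ∀ c : ℝ, (k : ℝ) + 1 < 2 * c →
      IntegrableOn (fun r : ℝ => r ^ k * (1 + r ^ 2) ^ (-c)) (Ioi 0) := by
    intro c hc
    have h1 : Integrable (fun x : E (k + 1) => (fun r : ℝ => (1 + r ^ 2) ^ (-c)) ‖x‖) :=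
      int_hw c (by push_cast; linarith)
    have h2 := (integrable_fun_norm_addHaar (volume : Measure (E (k + 1)))
      (f := fun r : ℝ => (1 + r ^ 2) ^ (-c))).1 h1
    rw [hfr] at h2
    simpa [smul_eq_mul] using h2
  have hJ : ∀ c : ℝ, J (k + 1) c = ((Module.finrank ℝ (E (k + 1)) : ℕ) : ℝ) *
      (volume : Measure (E (k + 1))).real (Metric.ball 0 1) *
      ∫ r in Ioi (0:ℝ), r ^ k * (1 + r ^ 2) ^ (-c) := by
    intro c
    have h1 := integral_fun_norm_addHaar (volume : Measure (E (k + 1)))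
      (fun r : ℝ => (1 + r ^ 2) ^ (-c))
    rw [hfr] at h1
    simp only [smul_eq_mul, nsmul_eq_mul, ← mul_assoc] at h1
    exact h1
  have key : (2 * a - (k + 1)) * (∫ r in Ioi (0:ℝ), r ^ k * (1 + r ^ 2) ^ (-a)) =
      2 * a * ∫ r in Ioi (0:ℝ), r ^ k * (1 + r ^ 2) ^ (-(a + 1)) := by
    set G : ℝ → ℝ := fun r => r ^ (k + 1) * (1 + r ^ 2) ^ (-a) with hG
    set G' : ℝ → ℝ := fun r => 2 * a * (r ^ k * (1 + r ^ 2) ^ (-(a + 1))) -
      (2 * a - (k + 1)) * (r ^ k * (1 + r ^ 2) ^ (-a)) with hG'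
    have hd : ∀ r : ℝ, HasDerivAt G (G' r) r := by
      intro r
      have h1 : HasDerivAt (fun r : ℝ => 1 + r ^ 2) (2 * r) r := by
        simpa using (hasDerivAt_pow 2 r).const_add 1
      have h2 := h1.rpow_const (p := -a) (Or.inl (hH r).ne')
      have h3 := (hasDerivAt_pow (k + 1) r).mul h2
      refine h3.congr_deriv ?_
      have e1 : (1 + r ^ 2) ^ (-a) = (1 + r ^ 2) ^ (-a - 1) * (1 + r ^ 2) := by
        rw [← Real.rpow_add_one (hH r).ne']; ring_nf
      have e2 : (1 + r ^ 2) ^ (-(a + 1)) = (1 + r ^ 2) ^ (-a - 1) := by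
        congr 1; ring
      simp only [hG', Nat.add_sub_cancel]
      rw [e1, e2]
      push_cast
      ring
    have hGi : IntegrableOn G' (Ioi 0) :=
      ((hi (a + 1) (by linarith)).const_mul _).sub ((hi a ha).const_mul _)
    have hlim : Tendsto G atTop (𝓝 0) := by
      have h1 : Tendsto (fun r : ℝ => r ^ (-(2 * a - (k + 1)))) atTop (𝓝 0) :=
        tendsto_rpow_neg_atTop (by linarith)
      refine squeeze_zero' ?_ ?_ h1
      · filter_upwards [eventually_ge_atTop 0] with r hr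
        have := (hH r).le
        simp only [hG]; positivity
      · filter_upwards [eventually_gt_atTop 0] with r hr
        simp only [hG]
        have e1 : (1 + r ^ 2) ^ (-a) ≤ (r ^ 2) ^ (-a) :=
          Real.rpow_le_rpow_of_nonpos (by positivity) (by linarith) (by linarith)
        have e2 : (r ^ 2) ^ (-a) = r ^ (-(2 * a)) := by
          rw [← Real.rpow_natCast r 2, ← Real.rpow_mul hr.le]
          congr 1; push_cast; ring
        have e3 : r ^ (k + 1) * r ^ (-(2 * a)) = r ^ (-(2 * a - (k + 1))) := by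
          rw [← Real.rpow_natCast r (k + 1), ← Real.rpow_add hr]
          congr 1; push_cast; ring
        rw [← e3, ← e2]
        exact mul_le_mul_of_nonneg_left e1 (by positivity)
    have h1 := integral_Ioi_of_hasDerivAt_of_tendsto (a := 0) (hd 0).continuousAt.continuousWithinAt
      (fun r _ => hd r) hGi hlim
    have h2 : G 0 = 0 := by simp [hG]
    rw [h2, sub_zero] at h1
    have h3 : ∫ r in Ioi (0:ℝ), G' r = 2 * a * (∫ r in Ioi (0:ℝ), r ^ k * (1 + r ^ 2) ^ (-(a + 1))) -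
        (2 * a - (k + 1)) * ∫ r in Ioi (0:ℝ), r ^ k * (1 + r ^ 2) ^ (-a) := by
      simp only [hG']
      rw [integral_sub ((hi (a + 1) (by linarith)).const_mul _) ((hi a ha).const_mul _),
        integral_const_mul, integral_const_mul]
    rw [h3] at h1
    linarith
  rw [hJ, hJ]
  linear_combination (((Module.finrank ℝ (E (k + 1)) : ℕ) : ℝ) *
      (volume : Measure (E (k + 1))).real (Metric.ball 0 1)) * key

/-- the energy density of `(1 + |x|^2)^a - m` -/
theorem dens {n : ℕ} (α a m : ℝ) (x : E n) :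
    hw x ^ α * ‖fderiv ℝ (fun y : E n => hw y ^ a - m) x‖ ^ 2 =
      4 * a ^ 2 * (hw x ^ (-(1 - α - 2 * a)) - hw x ^ (-(1 - α - 2 * a + 1))) := by
  have h1 : HasFDerivAt (fun y : E n => hw y ^ a - m) ((a * hw x ^ (a - 1)) • (2 • innerSL ℝ x)) x :=
    (hwr_fd a x).sub_const m
  rw [h1.fderiv, norm_smul]
  have h2 : ‖(2 • innerSL ℝ x : E n →L[ℝ] ℝ)‖ = 2 * ‖x‖ := by
    rw [← Nat.cast_smul_eq_nsmul ℝ, norm_smul, innerSL_apply_norm]
    norm_num
  rw [h2, mul_pow, mul_pow, norm_mul, mul_pow, Real.norm_eq_abs, Real.norm_eq_abs, sq_abs, sq_abs]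
  have h3 : ‖x‖ ^ 2 = hw x - 1 := by unfold hw; ring
  rw [h3]
  have e0 := hw_pos x
  have e1 : hw x ^ (-(1 - α - 2 * a)) = hw x ^ α * (hw x ^ (a - 1)) ^ 2 * hw x := by
    rw [← Real.rpow_natCast (hw x ^ (a - 1)) 2, ← Real.rpow_mul e0.le, ← Real.rpow_add e0]
    rw [← Real.rpow_add_one e0.ne']
    congr 1; push_cast; ring
  have e2 : hw x ^ (-(1 - α - 2 * a + 1)) = hw x ^ α * (hw x ^ (a - 1)) ^ 2 := by
    rw [← Real.rpow_natCast (hw x ^ (a - 1)) 2, ← Real.rpow_mul e0.le, ← Real.rpow_add e0]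
    congr 1; push_cast; ring
  rw [e1, e2]
  ring

theorem hw_pow_mul {n : ℕ} (a b : ℝ) (x : E n) : hw x ^ a * hw x ^ b = hw x ^ (a + b) :=
  (Real.rpow_add (hw_pos x) a b).symm

/-- unconstrained test -/
theorem ub_free (k : ℕ) {α b : ℝ} {con : Prop} (hcon : ¬ con) (h : LB (k + 1) α con b) (κ : ℝ)
    (hκ : (k : ℝ) + 1 < 2 * κ) : b ≤ (k + 1) * (κ + α - 1) ^ 2 / (2 * κ) := by
  set a : ℝ := (1 - α - κ) / 2 with ha
  have hκa : 1 - α - 2 * a = κ := by rw [ha]; ring
  have hJp : 0 < J (k + 1) κ := J_pos (by push_cast; linarith)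
  have i1 := int_hw (n := k + 1) κ (by push_cast; linarith)
  have i2 := int_hw (n := k + 1) (κ + 1) (by push_cast; linarith)
  have eN : ∀ x : E (k + 1), hw x ^ (α - 1) * (hw x ^ a - 0) ^ 2 = hw x ^ (-κ) := by
    intro x
    rw [sub_zero, ← Real.rpow_natCast (hw x ^ a) 2, ← Real.rpow_mul (hw_pos x).le, hw_pow_mul]
    congr 1; push_cast; linarith
  have hφ : ContDiff ℝ ∞ (fun y : E (k + 1) => hw y ^ a - 0) :=
    (contDiff_hwr a).sub contDiff_const
  have t := LB_test h (φ := fun y : E (k + 1) => hw y ^ a - 0) hφ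
    (by
      simp_rw [dens, hκa]
      exact (i1.sub i2).const_mul _)
    (by simp_rw [eN]; exact i1)
    (fun hc => absurd hc hcon)
  simp_rw [dens, hκa, eN] at t
  rw [integral_const_mul, integral_sub i1 i2] at t
  change b * J (k + 1) κ ≤ 4 * a ^ 2 * (J (k + 1) κ - J (k + 1) (κ + 1)) at t
  have hr := J_rec k κ hκ
  have hκp : 0 < κ := by
    have : (0:ℝ) ≤ k := Nat.cast_nonneg k
    linarith
  rw [le_div_iff₀ (by positivity)]
  have e1 : J (k + 1) κ - J (k + 1) (κ + 1) = J (k + 1) κ * ((k + 1) / (2 * κ)) := by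
    field_simp
    linarith
  rw [e1] at t
  have e2 : 4 * a ^ 2 = (κ + α - 1) ^ 2 := by rw [ha]; ring
  rw [e2] at t
  have t2 : J (k + 1) κ * (b * (2 * κ)) ≤ J (k + 1) κ * ((k + 1) * (κ + α - 1) ^ 2) := by
    have := mul_le_mul_of_nonneg_right t (show (0:ℝ) ≤ 2 * κ by positivity)
    calc J (k + 1) κ * (b * (2 * κ)) = b * J (k + 1) κ * (2 * κ) := by ring
      _ ≤ _ := this
      _ = _ := by field_simp
  exact le_of_mul_le_mul_left t2 hJp

/-- constrained test -/
theorem ub_con (k : ℕ) {α b : ℝ} {con : Prop} (h : LB (k + 1) α con b) (κ : ℝ)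
    (hκ : (k : ℝ) + 1 < 2 * κ) (hα : (k : ℝ) + 1 < 2 * (1 - α)) :
    b * (J (k + 1) κ - J (k + 1) ((1 - α + κ) / 2) ^ 2 / J (k + 1) (1 - α)) ≤
      (k + 1) * (κ + α - 1) ^ 2 / (2 * κ) * J (k + 1) κ := by
  set a : ℝ := (1 - α - κ) / 2 with ha
  set m : ℝ := J (k + 1) ((1 - α + κ) / 2) / J (k + 1) (1 - α) with hm
  have hκa : 1 - α - 2 * a = κ := by rw [ha]; ring
  have hJ0 : 0 < J (k + 1) (1 - α) := J_pos (by push_cast; linarith)
  have i1 := int_hw (n := k + 1) κ (by push_cast; linarith)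
  have i2 := int_hw (n := k + 1) (κ + 1) (by push_cast; linarith)
  have i3 := int_hw (n := k + 1) ((1 - α + κ) / 2) (by push_cast; linarith)
  have i4 := int_hw (n := k + 1) (1 - α) (by push_cast; linarith)
  have eM : ∀ x : E (k + 1), hw x ^ (α - 1) * (hw x ^ a - m) =
      hw x ^ (-((1 - α + κ) / 2)) - m * hw x ^ (-(1 - α)) := by
    intro x
    rw [mul_sub, hw_pow_mul]
    have e1 : α - 1 + a = -((1 - α + κ) / 2) := by rw [ha]; ring
    have e2 : α - 1 = -(1 - α) := by ring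
    rw [e1, ← e2]; ring
  have eN : ∀ x : E (k + 1), hw x ^ (α - 1) * (hw x ^ a - m) ^ 2 = hw x ^ (-κ) -
      2 * m * hw x ^ (-((1 - α + κ) / 2)) + m ^ 2 * hw x ^ (-(1 - α)) := by
    intro x
    have e3 : hw x ^ (α - 1) * (hw x ^ a) ^ 2 = hw x ^ (-κ) := by
      rw [← Real.rpow_natCast (hw x ^ a) 2, ← Real.rpow_mul (hw_pos x).le, hw_pow_mul]
      congr 1; push_cast; linarith
    have e4 : hw x ^ (α - 1) * hw x ^ a = hw x ^ (-((1 - α + κ) / 2)) := by
      rw [hw_pow_mul]; congr 1; rw [ha]; ring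
    have e5 : α - 1 = -(1 - α) := by ring
    rw [← e3, ← e4, ← e5]; ring
  have iN : Integrable (fun x : E (k + 1) => hw x ^ (-κ) -
      2 * m * hw x ^ (-((1 - α + κ) / 2))) := i1.sub (i3.const_mul _)
  have hφ : ContDiff ℝ ∞ (fun y : E (k + 1) => hw y ^ a - m) :=
    (contDiff_hwr a).sub contDiff_const
  have t := LB_test h (φ := fun y : E (k + 1) => hw y ^ a - m) hφ
    (by
      simp_rw [dens, hκa]
      exact (i1.sub i2).const_mul _)
    (by simp_rw [eN]; exact iN.add (i4.const_mul _))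
    (fun _ => by
      simp_rw [eM]
      refine ⟨i3.sub (i4.const_mul _), ?_⟩
      rw [integral_sub i3 (i4.const_mul _), integral_const_mul]
      change J (k + 1) ((1 - α + κ) / 2) - m * J (k + 1) (1 - α) = 0
      rw [hm]; field_simp; ring)
  simp_rw [dens, hκa, eN] at t
  rw [integral_const_mul, integral_sub i1 i2, integral_add iN (i4.const_mul _),
    integral_sub i1 (i3.const_mul _), integral_const_mul, integral_const_mul] at t
  change b * (J (k + 1) κ - 2 * m * J (k + 1) ((1 - α + κ) / 2) + m ^ 2 * J (k + 1) (1 - α)) ≤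
    4 * a ^ 2 * (J (k + 1) κ - J (k + 1) (κ + 1)) at t
  have hr := J_rec k κ hκ
  have hκp : 0 < κ := by
    have : (0:ℝ) ≤ k := Nat.cast_nonneg k
    linarith
  have e1 : J (k + 1) κ - J (k + 1) (κ + 1) = J (k + 1) κ * ((k + 1) / (2 * κ)) := by
    field_simp
    linarith
  have e2 : 4 * a ^ 2 = (κ + α - 1) ^ 2 := by rw [ha]; ring
  have e3 : J (k + 1) κ - 2 * m * J (k + 1) ((1 - α + κ) / 2) + m ^ 2 * J (k + 1) (1 - α) =
      J (k + 1) κ - J (k + 1) ((1 - α + κ) / 2) ^ 2 / J (k + 1) (1 - α) := by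
    rw [hm]; field_simp; ring
  rw [e1, e2, e3] at t
  refine t.trans (le_of_eq ?_)
  ring

/-- the test function `x_1` -/
theorem ub_lin (k : ℕ) {α b : ℝ} {con : Prop} (h : LB (k + 1) α con b)
    (hα : (k : ℝ) + 2 < 2 * (-α)) : b ≤ -(2 * α) := by
  set s : ℝ := -α with hs
  have hk0 : (0:ℝ) ≤ k := Nat.cast_nonneg k
  have hsp : 0 < s := by linarith
  set φ : E (k + 1) → ℝ := fun x => x 0 with hφ
  have hφc : ContDiff ℝ ∞ φ := by
    have : φ = (EuclideanSpace.proj (𝕜 := ℝ) 0 : E (k + 1) →L[ℝ] ℝ) := rfl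
    rw [this]
    exact ContinuousLinearMap.contDiff _
  have hfd : ∀ x, HasFDerivAt φ (EuclideanSpace.proj (𝕜 := ℝ) 0 : E (k + 1) →L[ℝ] ℝ) x := fun x =>
    (EuclideanSpace.proj (𝕜 := ℝ) 0 : E (k + 1) →L[ℝ] ℝ).hasFDerivAt
  have hle : ∀ x : E (k + 1), |x 0| ≤ ‖x‖ := fun x => by
    simpa using PiLp.norm_apply_le x 0
  have hnp : ‖(EuclideanSpace.proj (𝕜 := ℝ) 0 : E (k + 1) →L[ℝ] ℝ)‖ ≤ 1 := by
    refine ContinuousLinearMap.opNorm_le_bound _ zero_le_one fun x => ?_
    rw [one_mul]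
    exact hle x
  have i0 := int_hw (n := k + 1) s (by push_cast; linarith)
  have i1 := int_hw (n := k + 1) (s - 1 / 2) (by push_cast; linarith)
  have hcφ : Continuous φ := hφc.continuous
  have hsq : ∀ x : E (k + 1), φ x ^ 2 ≤ hw x := by
    intro x
    have := pow_le_pow_left₀ (abs_nonneg _) (hle x) 2
    rw [sq_abs] at this
    unfold hw; linarith
  have iN : Integrable (fun x : E (k + 1) => hw x ^ (α - 1) * φ x ^ 2) := by
    refine i0.mono' ((cont_hwr _).mul (hcφ.pow 2)).aestronglyMeasurable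
      (Eventually.of_forall fun x => ?_)
    have h0 : 0 ≤ hw x ^ (α - 1) := Real.rpow_nonneg (hw_pos x).le _
    rw [Real.norm_of_nonneg (mul_nonneg h0 (sq_nonneg _))]
    calc _ ≤ hw x ^ (α - 1) * hw x := mul_le_mul_of_nonneg_left (hsq x) h0
      _ = hw x ^ (-s) := by rw [hw_mul, hs, neg_neg]
  have habs : ∀ x : E (k + 1), |φ x| ≤ hw x ^ (1 / 2 : ℝ) := by
    intro x
    rw [← Real.sqrt_eq_rpow]
    exact Real.abs_le_sqrt (hsq x)
  have iS : Integrable (fun x : E (k + 1) => φ x * hw x ^ (-s)) := by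
    refine i1.mono' (hcφ.mul (cont_hwr _)).aestronglyMeasurable
      (Eventually.of_forall fun x => ?_)
    have h0 : 0 ≤ hw x ^ (-s) := Real.rpow_nonneg (hw_pos x).le _
    rw [norm_mul, Real.norm_eq_abs, Real.norm_of_nonneg h0]
    calc _ ≤ hw x ^ (1 / 2 : ℝ) * hw x ^ (-s) := mul_le_mul_of_nonneg_right (habs x) h0
      _ = _ := by rw [hw_pow_mul]; congr 1; ring
  have iM : Integrable (fun x : E (k + 1) => hw x ^ (α - 1) * φ x) := by
    refine iS.mono ((cont_hwr _).mul hcφ).aestronglyMeasurable (Eventually.of_forall fun x => ?_)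
    have h0 : 0 ≤ hw x ^ (-s) := Real.rpow_nonneg (hw_pos x).le _
    have h1 : 0 ≤ hw x ^ (α - 1) := Real.rpow_nonneg (hw_pos x).le _
    rw [norm_mul, norm_mul, mul_comm ‖φ x‖, Real.norm_of_nonneg h0, Real.norm_of_nonneg h1]
    refine mul_le_mul_of_nonneg_right ?_ (norm_nonneg _)
    exact Real.rpow_le_rpow_of_exponent_le (one_le_hw x) (by rw [hs]; linarith)
  have hM : ∫ x, hw x ^ (α - 1) * φ x = 0 := by
    have h1 : ∫ x, hw (-x) ^ (α - 1) * φ (-x) = ∫ x, hw x ^ (α - 1) * φ x :=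
      integral_neg_eq_self (fun x => hw x ^ (α - 1) * φ x) volume
    have h2 : ∀ x, hw (-x) ^ (α - 1) * φ (-x) = -(hw x ^ (α - 1) * φ x) := by
      intro x
      simp only [hφ, hw, norm_neg, PiLp.neg_apply]
      ring
    simp_rw [h2] at h1
    rw [integral_neg] at h1
    linarith
  have iE : Integrable (fun x => hw x ^ α * ‖fderiv ℝ φ x‖ ^ 2) := by
    refine i0.mono' ?_ (Eventually.of_forall fun x => ?_)
    · exact ((cont_hwr _).mul (((hφc.of_le (by exact_mod_cast le_top : (1 : ℕ∞ω) ≤ ∞)).continuous_fderiv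
        (by norm_num)).norm.pow 2)).aestronglyMeasurable
    · have h0 : 0 ≤ hw x ^ α := Real.rpow_nonneg (hw_pos x).le _
      rw [Real.norm_of_nonneg (mul_nonneg h0 (sq_nonneg _)), (hfd x).fderiv]
      calc _ ≤ hw x ^ α * 1 := mul_le_mul_of_nonneg_left (pow_le_one₀ (norm_nonneg _) hnp) h0
        _ = _ := by rw [mul_one, hs, neg_neg]
  have t := LB_test h hφc iE iN fun _ => ⟨iM, hM⟩
  have hE2 : ∫ x, hw x ^ α * ‖fderiv ℝ φ x‖ ^ 2 ≤ J (k + 1) s := by
    refine integral_mono iE i0 fun x => ?_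
    have h0 : 0 ≤ hw x ^ α := Real.rpow_nonneg (hw_pos x).le _
    simp only
    rw [(hfd x).fderiv]
    calc _ ≤ hw x ^ α * 1 := mul_le_mul_of_nonneg_left (pow_le_one₀ (norm_nonneg _) hnp) h0
      _ = _ := by rw [mul_one, hs, neg_neg]
  have hIBP : 2 * s * ∫ x, hw x ^ (α - 1) * φ x ^ 2 = J (k + 1) s := by
    have hv : ∀ x : E (k + 1), fderiv ℝ φ x (EuclideanSpace.single 0 (1:ℝ)) = 1 := by
      intro x; rw [(hfd x).fderiv]; simp
    have hw' : ∀ x : E (k + 1), fderiv ℝ (fun y : E (k + 1) => hw y ^ (-s)) x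
        (EuclideanSpace.single 0 (1:ℝ)) = -(2 * s) * (hw x ^ (α - 1) * φ x) := by
      intro x
      rw [hwr_fderiv]
      have e1 : -s - 1 = α - 1 := by rw [hs]; ring
      have e2 : ⟪x, EuclideanSpace.single 0 (1:ℝ)⟫ = φ x := by
        rw [EuclideanSpace.inner_single_right]
        simp [hφ]
      rw [e1, e2]; ring
    have h3 := integral_mul_fderiv_eq_neg_fderiv_mul_of_integrable (μ := volume)
      (f := φ) (g := fun y : E (k + 1) => hw y ^ (-s)) (v := EuclideanSpace.single 0 (1:ℝ))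
      (by simp_rw [hv]; simpa using i0)
      (by
        simp_rw [hw']
        refine (iN.const_mul (-(2 * s))).congr (Eventually.of_forall fun x => ?_)
        simp only; ring)
      iS (fun x _ => (hfd x).differentiableAt)
      (fun x _ => (hwr_fd (-s) x).differentiableAt)
    simp_rw [hv, hw'] at h3
    have h4 : ∫ x, φ x * (-(2 * s) * (hw x ^ (α - 1) * φ x)) =
        -(2 * s) * ∫ x, hw x ^ (α - 1) * φ x ^ 2 := by
      rw [← integral_const_mul]
      refine integral_congr_ae (Eventually.of_forall fun x => ?_)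
      simp only; ring
    rw [h4] at h3
    have h5 : ∫ x : E (k + 1), 1 * hw x ^ (-s) = J (k + 1) s := by
      simp only [one_mul]; rfl
    rw [h5] at h3
    linarith
  have hJp : 0 < J (k + 1) s := J_pos (by push_cast; linarith)
  have hNp : 0 < ∫ x, hw x ^ (α - 1) * φ x ^ 2 := by
    by_contra hneg
    have := mul_nonpos_of_nonneg_of_nonpos (show (0:ℝ) ≤ 2 * s by positivity) (not_lt.1 hneg)
    linarith
  have t2 : b * ∫ x, hw x ^ (α - 1) * φ x ^ 2 ≤ 2 * s * ∫ x, hw x ^ (α - 1) * φ x ^ 2 := by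
    rw [hIBP]; exact t.trans hE2
  have := le_of_mul_le_mul_right t2 hNp
  rw [hs] at this
  linarith

end Pool.Agent.Q84.WH
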