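import Pool.Agent.Q84.WH.Lower
import Pool.Agent.Q84.WH.Tests

/-!
# The best constant: assembly
-/

set_option autoImplicit false

open MeasureTheory Set Filter Topology
open scoped RealInnerProductSpace ContDiff

namespace Pool.Agent.Q84.WH

/-- the value of the best constant -/
noncomputable def best (n : ℕ) (α : ℝ) : ℝ :=
  if α < -((n : ℝ) - 2) / 2 then
    if α ≤ -(n : ℝ) then -2 * α
    else if α ≤ -((n : ℝ) + 2) / 2 then -4 * α - 2 * n
    else (n + 2 * α - 2) ^ 2 / 4
  else if α ≤ 1 + (n : ℝ) / 2 then (n + 2 * α - 2) ^ 2 / 4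
  else 2 * n * (α - 1)

/-- the constraint -/
def Con (n : ℕ) (α : ℝ) : Prop := α < -((n : ℝ) - 2) / 2

theorem c1_of_smooth {n : ℕ} {u : E n → ℝ} (hu : ContDiff ℝ ∞ u) : ContDiff ℝ 1 u :=
  hu.of_le (by exact_mod_cast le_top)

theorem LB_best (n : ℕ) (hn : 3 ≤ n) (α : ℝ) (hα : α ≠ -((n : ℝ) - 2) / 2) :
    LB n α (Con n α) (best n α) := by
  have hn3 : (3:ℝ) ≤ n := by exact_mod_cast hn
  intro u hu hc hcon
  have hu1 := c1_of_smooth hu
  unfold best
  split_ifs with h1 h2 h3 h4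
  · -- α ≤ -n
    obtain ⟨k, rfl⟩ : ∃ k, n = k + 1 := ⟨n - 1, by omega⟩
    push_cast at hn3 h1 h2
    have hmean := hcon (by unfold Con; push_cast; exact h1)
    have e1 : α = -(-α) := (neg_neg α).symm
    have h5 : 0 < 2 * (-α) - ((k:ℝ) + 1) := by linarith
    have := lower_con k (-α) 1 _ (4 * (-α) - 2 * (k + 1)) (-2 * α) (div_pos (by linarith) h5)
      zero_le_one (ric_mid k (-α) h5) (by linarith) (by linarith) (by linarith) (by linarith)
      (by linarith) hu1 hc (by simpa using hmean)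
    simpa using this
  · -- -n < α ≤ -(n+2)/2
    obtain ⟨k, rfl⟩ : ∃ k, n = k + 1 := ⟨n - 1, by omega⟩
    push_cast at hn3 h1 h2 h3
    have hmean := hcon (by unfold Con; push_cast; exact h1)
    have h5 : 0 < 2 * (-α) - ((k:ℝ) + 1) := by linarith
    have := lower_con k (-α) 1 _ (4 * (-α) - 2 * (k + 1)) (-4 * α - 2 * (k + 1))
      (div_pos (by linarith) h5)
      zero_le_one (ric_mid k (-α) h5) (by linarith) (by linarith) (by linarith) (by linarith)
      (by linarith) hu1 hc (by simpa using hmean)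
    push_cast
    simpa using this
  · -- Hardy range with constraint
    obtain ⟨k, rfl⟩ : ∃ k, n = k + 1 := ⟨n - 1, by omega⟩
    push_cast at hn3 h1 h2 h3
    have hmean := hcon (by unfold Con; push_cast; exact h1)
    set b : ℝ := (2 * (-α) + 1 - k) / 4 with hb
    have hb0 : 0 ≤ b := by rw [hb]; linarith
    have hb1 : b ≤ 1 := by rw [hb]; linarith
    have e : ((k:ℝ) + 1 + 2 * α - 2) ^ 2 / 4 = 4 * b ^ 2 := by rw [hb]; ring
    have hle : 4 * b ^ 2 ≤ 2 * (-α) := by
      have : 2 * (-α) = 4 * b + k - 1 := by rw [hb]; ring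
      rw [this]; nlinarith
    have := lower_con k (-α) b _ (4 * b ^ 2) (4 * b ^ 2) (by positivity)
      hb0 (ric_hardy k (-α) b (by rw [hb]; ring) hb1 (by linarith)) (by linarith) (by linarith)
      le_rfl hle (by positivity) hu1 hc (by simpa using hmean)
    push_cast
    rw [e]
    simpa using this
  · -- Hardy range without constraint
    push Not at h1
    have h1' : -((n : ℝ) - 2) / 2 < α := lt_of_le_of_ne h1 (Ne.symm hα)
    refine barta α ((n + 2 * α - 2) / 4) _ ?_ ?_ hu1 hc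
    · nlinarith
    · nlinarith
  · push Not at h1 h4
    refine barta α (α - 1) _ ?_ ?_ hu1 hc
    · linarith
    · nlinarith

theorem tendsto_J (k : ℕ) : Tendsto (fun κ => J (k + 1) κ) (𝓝[>] (((k:ℝ) + 1) / 2)) atTop := by
  have hk0 : (0:ℝ) ≤ k := Nat.cast_nonneg k
  set c := J (k + 1) (((k:ℝ) + 1) / 2 + 2) with hc
  have hcp : 0 < c := J_pos (by push_cast; linarith)
  have h1 : Tendsto (fun κ : ℝ => (κ - ((k:ℝ) + 1) / 2)⁻¹) (𝓝[>] (((k:ℝ) + 1) / 2)) atTop := by
    refine tendsto_inv_nhdsGT_zero.comp ?_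
    refine tendsto_nhdsWithin_iff.2 ⟨?_, ?_⟩
    · have : Tendsto (fun κ : ℝ => κ - ((k:ℝ) + 1) / 2) (𝓝 (((k:ℝ) + 1) / 2))
          (𝓝 (((k:ℝ) + 1) / 2 - ((k:ℝ) + 1) / 2)) := (continuous_id.sub continuous_const).tendsto _
      rw [sub_self] at this
      exact this.mono_left nhdsWithin_le_nhds
    · filter_upwards [self_mem_nhdsWithin] with κ hκ
      have : ((k:ℝ) + 1) / 2 < κ := hκ
      exact sub_pos.2 this
  have h2 : Tendsto (fun κ : ℝ => (((k:ℝ) + 1) / 2 * c) * (κ - ((k:ℝ) + 1) / 2)⁻¹)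
      (𝓝[>] (((k:ℝ) + 1) / 2)) atTop := h1.const_mul_atTop (by positivity)
  refine tendsto_atTop_mono' _ ?_ h2
  have hlt : ∀ᶠ κ in 𝓝[>] (((k:ℝ) + 1) / 2), κ < ((k:ℝ) + 1) / 2 + 1 :=
    nhdsWithin_le_nhds (gt_mem_nhds (by linarith))
  filter_upwards [self_mem_nhdsWithin, hlt] with κ hκ hκ2
  have hκ' : ((k:ℝ) + 1) / 2 < κ := hκ
  have hr := J_rec k κ (by linarith)
  have hm : c ≤ J (k + 1) (κ + 1) := J_mono (by push_cast; linarith) (by linarith)
  have hd : 0 < κ - ((k:ℝ) + 1) / 2 := sub_pos.2 hκ'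
  rw [← div_eq_mul_inv, div_le_iff₀ hd]
  have e1 : J (k + 1) κ * (κ - ((k:ℝ) + 1) / 2) = κ * J (k + 1) (κ + 1) := by linarith
  rw [e1]
  exact mul_le_mul hκ'.le hm hcp.le (by linarith)

theorem best_max (n : ℕ) (hn : 3 ≤ n) (α : ℝ) (hα : α ≠ -((n : ℝ) - 2) / 2) (b : ℝ)
    (h : LB n α (Con n α) b) : b ≤ best n α := by
  have hn3 : (3:ℝ) ≤ n := by exact_mod_cast hn
  obtain ⟨k, rfl⟩ : ∃ k, n = k + 1 := ⟨n - 1, by omega⟩
  have hk0 : (0:ℝ) ≤ k := Nat.cast_nonneg k
  push_cast at hn3 hα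
  have hcont : Tendsto (fun κ : ℝ => ((k:ℝ) + 1) * (κ + α - 1) ^ 2 / (2 * κ))
      (𝓝[>] (((k:ℝ) + 1) / 2)) (𝓝 (((k:ℝ) + 1 + 2 * α - 2) ^ 2 / 4)) := by
    have h1 : ContinuousAt (fun κ : ℝ => ((k:ℝ) + 1) * (κ + α - 1) ^ 2 / (2 * κ))
        (((k:ℝ) + 1) / 2) := by
      refine ContinuousAt.div (by fun_prop) (by fun_prop) ?_
      have : (0:ℝ) < (k:ℝ) + 1 := by positivity
      positivity
    have h2 := h1.tendsto
    have e : ((k:ℝ) + 1) * (((k:ℝ) + 1) / 2 + α - 1) ^ 2 / (2 * (((k:ℝ) + 1) / 2)) =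
        ((k:ℝ) + 1 + 2 * α - 2) ^ 2 / 4 := by
      have : ((k:ℝ) + 1) ≠ 0 := by positivity
      field_simp
      ring
    simp only [e] at h2
    exact h2.mono_left nhdsWithin_le_nhds
  unfold best
  split_ifs with h1 h2 h3 h4
  · -- α ≤ -n
    push_cast at h1 h2
    have := ub_lin k h (by linarith)
    linarith
  · -- -n < α ≤ -(n+2)/2
    push_cast at h1 h2 h3 ⊢
    rcases lt_or_eq_of_le h3 with h5 | h5
    · have t := ub_con k h (-α - 1) (by linarith) (by linarith)
      have e1 : (1 - α + (-α - 1)) / 2 = -α := by ring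
      have e2 : -α - 1 + α - 1 = -2 := by ring
      rw [e1, e2] at t
      have r1 := J_rec k (-α - 1) (by linarith)
      have r2 := J_rec k (-α) (by linarith)
      have e3 : -α - 1 + 1 = -α := by ring
      have e4 : -α + 1 = 1 - α := by ring
      rw [e3] at r1
      rw [e4] at r2
      have p0 : 0 < J (k + 1) (-α - 1) := J_pos (by push_cast; linarith)
      have p1 : 0 < J (k + 1) (-α) := J_pos (by push_cast; linarith)
      have p2 : 0 < J (k + 1) (1 - α) := J_pos (by push_cast; linarith)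
      set s : ℝ := -α with hs
      have hs1 : 0 < s - 1 := by linarith
      have hs2 : 0 < 2 * s - (k + 1) := by linarith
      have q1 : J (k + 1) s = J (k + 1) (s - 1) * (2 * (s - 1) - (k + 1)) / (2 * (s - 1)) := by
        field_simp
        linarith
      have q2 : J (k + 1) s ^ 2 / J (k + 1) (1 - α) = J (k + 1) s * (2 * s) / (2 * s - (k + 1)) := by
        rw [div_eq_div_iff p2.ne' hs2.ne']
        linear_combination (J (k + 1) s) * r2
      rw [q2, q1] at t
      have q3 : J (k + 1) (s - 1) -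
          J (k + 1) (s - 1) * (2 * (s - 1) - (k + 1)) / (2 * (s - 1)) * (2 * s) /
            (2 * s - (k + 1)) =
          J (k + 1) (s - 1) * ((k + 1) / ((s - 1) * (2 * s - (k + 1)))) := by
        obtain ⟨d, hd⟩ : ∃ d, 2 * s - ((k:ℝ) + 1) = d := ⟨_, rfl⟩
        have hk1 : (k:ℝ) + 1 = 2 * s - d := by linarith
        rw [hd] at hs2 ⊢
        rw [hk1]
        field_simp
        ring
      rw [q3] at t
      have q4 : J (k + 1) (s - 1) * (b * ((k + 1) / ((s - 1) * (2 * s - (k + 1))))) ≤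
          J (k + 1) (s - 1) * ((k + 1) * (-2) ^ 2 / (2 * (s - 1))) := by linarith
      have q5 := le_of_mul_le_mul_left q4 p0
      have q6 : b * ((k:ℝ) + 1) / ((s - 1) * (2 * s - (k + 1))) ≤
          (k + 1) * (-2) ^ 2 / (2 * (s - 1)) := by
        calc _ = b * ((k + 1) / ((s - 1) * (2 * s - (k + 1)))) := by ring
          _ ≤ _ := q5
      rw [div_le_div_iff₀ (by positivity) (by positivity)] at q6
      have q7 : (((k:ℝ) + 1) * (2 * (s - 1))) * b ≤
          (((k:ℝ) + 1) * (2 * (s - 1))) * (4 * s - 2 * (k + 1)) := by nlinarith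
      have q8 := le_of_mul_le_mul_left q7 (by positivity)
      have : s = -α := hs
      linarith
    · -- the common end point of two ranges
      have hval : -4 * α - 2 * ((k:ℝ) + 1) = ((k:ℝ) + 1 + 2 * α - 2) ^ 2 / 4 := by
        rw [h5]; ring
      rw [hval]
      by_contra hneg
      push Not at hneg
      have hb0 : 0 ≤ b := le_trans (by positivity) hneg.le
      have hα1 : (k:ℝ) + 1 < 2 * (1 - α) := by linarith
      set K1 := J (k + 1) ((1 - α + ((k:ℝ) + 1) / 2) / 2) with hK1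
      have hJ0 : 0 < J (k + 1) (1 - α) := J_pos (by push_cast; linarith)
      set η := (b - ((k:ℝ) + 1 + 2 * α - 2) ^ 2 / 4) / 2 with hη
      have hηp : 0 < η := by rw [hη]; linarith
      have ev1 := hcont.eventually (gt_mem_nhds (show ((k:ℝ) + 1 + 2 * α - 2) ^ 2 / 4 < b - η by
        rw [hη]; linarith))
      have ev2 := (tendsto_J k).eventually (eventually_gt_atTop (b * (K1 ^ 2 / J (k + 1) (1 - α)) / η))
      obtain ⟨κ, hκ1, hκ2, hκ3⟩ := (ev1.and (ev2.and self_mem_nhdsWithin)).exists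
      have hκ' : ((k:ℝ) + 1) / 2 < κ := hκ3
      have t := ub_con k h κ (by linarith) hα1
      have hJκ : 0 < J (k + 1) κ := J_pos (by push_cast; linarith)
      have hm : J (k + 1) ((1 - α + κ) / 2) ≤ K1 := J_mono (by push_cast; linarith) (by linarith)
      have hm0 : 0 < J (k + 1) ((1 - α + κ) / 2) := J_pos (by push_cast; linarith)
      have hm2 : J (k + 1) ((1 - α + κ) / 2) ^ 2 / J (k + 1) (1 - α) ≤
          K1 ^ 2 / J (k + 1) (1 - α) :=
        div_le_div_of_nonneg_right (pow_le_pow_left₀ hm0.le hm 2) hJ0.le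
      rw [div_lt_iff₀ hηp] at hκ2
      have t1 := mul_le_mul_of_nonneg_left hm2 hb0
      have t2 := mul_lt_mul_of_pos_right hκ1 hJκ
      nlinarith
  · -- Hardy range with the constraint
    push_cast at h1 h2 h3 ⊢
    by_contra hneg
    push Not at hneg
    have hb0 : 0 ≤ b := le_trans (by positivity) hneg.le
    have hα1 : (k:ℝ) + 1 < 2 * (1 - α) := by linarith
    set K1 := J (k + 1) ((1 - α + ((k:ℝ) + 1) / 2) / 2) with hK1
    have hJ0 : 0 < J (k + 1) (1 - α) := J_pos (by push_cast; linarith)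
    set η := (b - ((k:ℝ) + 1 + 2 * α - 2) ^ 2 / 4) / 2 with hη
    have hηp : 0 < η := by rw [hη]; linarith
    have ev1 := hcont.eventually (gt_mem_nhds (show ((k:ℝ) + 1 + 2 * α - 2) ^ 2 / 4 < b - η by
      rw [hη]; linarith))
    have ev2 := (tendsto_J k).eventually (eventually_gt_atTop (b * (K1 ^ 2 / J (k + 1) (1 - α)) / η))
    obtain ⟨κ, hκ1, hκ2, hκ3⟩ := (ev1.and (ev2.and self_mem_nhdsWithin)).exists
    have hκ' : ((k:ℝ) + 1) / 2 < κ := hκ3
    have t := ub_con k h κ (by linarith) hα1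
    have hJκ : 0 < J (k + 1) κ := J_pos (by push_cast; linarith)
    have hm : J (k + 1) ((1 - α + κ) / 2) ≤ K1 := J_mono (by push_cast; linarith) (by linarith)
    have hm0 : 0 < J (k + 1) ((1 - α + κ) / 2) := J_pos (by push_cast; linarith)
    have hm2 : J (k + 1) ((1 - α + κ) / 2) ^ 2 / J (k + 1) (1 - α) ≤
        K1 ^ 2 / J (k + 1) (1 - α) :=
      div_le_div_of_nonneg_right (pow_le_pow_left₀ hm0.le hm 2) hJ0.le
    rw [div_lt_iff₀ hηp] at hκ2
    have t1 := mul_le_mul_of_nonneg_left hm2 hb0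
    have t2 := mul_lt_mul_of_pos_right hκ1 hJκ
    nlinarith
  · -- Hardy range without constraint
    push_cast at h1 h4 ⊢
    have hnc : ¬ Con (k + 1) α := by
      unfold Con; push_cast; exact h1
    refine ge_of_tendsto hcont ?_
    filter_upwards [self_mem_nhdsWithin] with κ hκ
    have hκ' : ((k:ℝ) + 1) / 2 < κ := hκ
    exact ub_free k hnc h κ (by linarith)
  · push_cast at h1 h4 ⊢
    have hnc : ¬ Con (k + 1) α := by
      unfold Con; push_cast; exact h1
    push Not at h4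
    have t := ub_free k hnc h (α - 1) (by linarith)
    refine t.trans (le_of_eq ?_)
    have : α - 1 ≠ 0 := by
      have : 0 < α - 1 := by linarith
      exact this.ne'
    field_simp
    ring

end Pool.Agent.Q84.WH
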