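import Pool.Agent.Q84.WH.Basic

/-!
# The one-dimensional inequality (radial functions), by a Riccati type supersolution
-/

set_option autoImplicit false

open MeasureTheory Set Filter Topology

namespace Pool.Agent.Q84.WH

/-- the logarithmic derivative of `(1 + r^2)^(b-1) (r^2 - ρ)` -/
noncomputable def AA (b ρ r : ℝ) : ℝ := 2 * r * ((b - 1) / (1 + r ^ 2) + 1 / (r ^ 2 - ρ))

/-- its derivative -/
noncomputable def AA' (b ρ r : ℝ) : ℝ :=
  2 * ((b - 1) / (1 + r ^ 2) + 1 / (r ^ 2 - ρ)) +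
    2 * r * (-((b - 1) * (2 * r)) / (1 + r ^ 2) ^ 2 - (2 * r) / (r ^ 2 - ρ) ^ 2)

theorem AA_deriv (b ρ r : ℝ) (h : r ^ 2 - ρ ≠ 0) : HasDerivAt (AA b ρ) (AA' b ρ r) r := by
  have h1 : HasDerivAt (fun r : ℝ => 1 + r ^ 2) (2 * r) r := by
    simpa using (hasDerivAt_pow 2 r).const_add 1
  have h2 : HasDerivAt (fun r : ℝ => r ^ 2 - ρ) (2 * r) r := by
    simpa using (hasDerivAt_pow 2 r).sub_const ρ
  have h3 : (1 + r ^ 2) ≠ 0 := by positivity
  have h4 := (h1.inv h3).const_mul (b - 1)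
  have h5 := h2.inv h
  have h6 : HasDerivAt (fun r : ℝ => 2 * r) 2 r := by
    simpa using (hasDerivAt_id r).const_mul 2
  have h7 := h6.mul (h4.add h5)
  have h8 := h7.congr_of_eventuallyEq (f₁ := AA b ρ) (Eventually.of_forall fun t => by
    simp only [AA, Pi.mul_apply, Pi.add_apply, Pi.inv_apply]
    ring)
  refine h8.congr_deriv ?_
  unfold AA'
  simp only [Pi.add_apply, Pi.inv_apply]
  ring

/-- the Riccati inequality -/
def Ric (k : ℕ) (s b ρ C : ℝ) : Prop := ∀ r : ℝ, 0 < r → r ^ 2 ≠ ρ →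
  AA' b ρ r + AA b ρ r ^ 2 + AA b ρ r * (k / r - 2 * s * r / (1 + r ^ 2)) + C / (1 + r ^ 2) ≤ 0

theorem ric_hardy (k : ℕ) (s b : ℝ) (hb : 4 * b = 2 * s + 1 - k) (hb1 : b ≤ 1)
    (hbs : 0 ≤ 2 + s - b) : Ric k s b ((k + 1) / 2) (4 * b ^ 2) := by
  intro r hr hr2
  have hs : s = (4 * b - 1 + k) / 2 := by linarith
  have h1 : (1 + r ^ 2) ≠ 0 := by positivity
  have h2 : r ^ 2 - ((k : ℝ) + 1) / 2 ≠ 0 := sub_ne_zero.2 hr2
  have key : AA' b ((k + 1) / 2) r + AA b ((k + 1) / 2) r ^ 2 +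
      AA b ((k + 1) / 2) r * (k / r - 2 * s * r / (1 + r ^ 2)) + 4 * b ^ 2 / (1 + r ^ 2) =
      -(4 * ((1 - b) * (2 + s - b)) / (1 + r ^ 2) ^ 2) := by
    unfold AA AA'
    obtain ⟨d, hd⟩ : ∃ d, r ^ 2 - ((k : ℝ) + 1) / 2 = d := ⟨_, rfl⟩
    have hk : (k : ℝ) = 2 * (r ^ 2 - d) - 1 := by linarith
    rw [hs, hd]
    rw [hd] at h2
    rw [hk]
    have hr0 : r ≠ 0 := hr.ne'
    field_simp
    ring
  rw [key]
  have : 0 ≤ (1 - b) * (2 + s - b) := mul_nonneg (by linarith) hbs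
  have : 0 ≤ 4 * ((1 - b) * (2 + s - b)) / (1 + r ^ 2) ^ 2 := by positivity
  linarith

theorem ric_mid (k : ℕ) (s : ℝ) (hs : 0 < 2 * s - (k + 1)) :
    Ric k s 1 ((k + 1) / (2 * s - (k + 1))) (4 * s - 2 * (k + 1)) := by
  intro r hr hr2
  have h1 : (1 + r ^ 2) ≠ 0 := by positivity
  have h0 : 2 * s - ((k : ℝ) + 1) ≠ 0 := hs.ne'
  have h2 : r ^ 2 - ((k : ℝ) + 1) / (2 * s - (k + 1)) ≠ 0 := sub_ne_zero.2 hr2
  have key : AA' 1 ((k + 1) / (2 * s - (k + 1))) r + AA 1 ((k + 1) / (2 * s - (k + 1))) r ^ 2 +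
      AA 1 ((k + 1) / (2 * s - (k + 1))) r * (k / r - 2 * s * r / (1 + r ^ 2)) +
      (4 * s - 2 * (k + 1)) / (1 + r ^ 2) = 0 := by
    unfold AA AA'
    obtain ⟨d, hd⟩ : ∃ d, r ^ 2 - ((k : ℝ) + 1) / (2 * s - (k + 1)) = d := ⟨_, rfl⟩
    obtain ⟨m, hm⟩ : ∃ m, 2 * s - ((k : ℝ) + 1) = m := ⟨_, rfl⟩
    rw [hd]
    rw [hd] at h2
    rw [hm] at hd h0
    have hk : (k : ℝ) = (r ^ 2 - d) * m - 1 := by
      rw [← hd]; field_simp; ring
    have hs2 : s = (m + (r ^ 2 - d) * m) / 2 := by linarith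
    rw [hs2, hk]
    have hr0 : r ≠ 0 := hr.ne'
    field_simp
    ring
  rw [key]

theorem one_dim (k : ℕ) (s b ρ C : ℝ) (hρ : 0 < ρ) (hb0 : 0 ≤ b)
    (hR : Ric k s b ρ C) {f : ℝ → ℝ} (hf : ContDiff ℝ 1 f)
    (hi1 : IntegrableOn (fun r => r ^ k * (1 + r ^ 2) ^ (-s) * (deriv f r) ^ 2) (Ioi 0))
    (hi2 : IntegrableOn (fun r => r ^ k * (1 + r ^ 2) ^ (-s - 1) * (f r - f √ρ) ^ 2) (Ioi 0)) :
    C * ∫ r in Ioi (0:ℝ), r ^ k * (1 + r ^ 2) ^ (-s - 1) * (f r - f √ρ) ^ 2 ≤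
      ∫ r in Ioi (0:ℝ), r ^ k * (1 + r ^ 2) ^ (-s) * (deriv f r) ^ 2 := by
  set r0 := √ρ with hr0
  have hr0p : 0 < r0 := Real.sqrt_pos.2 hρ
  have hr0s : r0 ^ 2 = ρ := Real.sq_sqrt hρ.le
  set g : ℝ → ℝ := fun r => f r - f r0 with hg
  have hfd : ∀ r, HasDerivAt f (deriv f r) r := fun r =>
    (hf.differentiable (by norm_num) r).hasDerivAt
  have hgd : ∀ r, HasDerivAt g (deriv f r) r := fun r => (hfd r).sub_const _
  have hgc : Continuous g := hf.continuous.sub continuous_const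
  set P : ℝ → ℝ := fun r => r ^ k * (1 + r ^ 2) ^ (-s) with hP
  have hH : ∀ r : ℝ, 0 < 1 + r ^ 2 := fun r => by positivity
  have hHc : ∀ a : ℝ, Continuous fun r : ℝ => (1 + r ^ 2) ^ a := fun a =>
    Continuous.rpow_const (by fun_prop) fun r => Or.inl (hH r).ne'
  have hPc : Continuous P := (continuous_pow k).mul (hHc _)
  have hPd : ∀ r, 0 < r → HasDerivAt P (P r * (k / r - 2 * s * r / (1 + r ^ 2))) r := by
    intro r hr
    have h1 : HasDerivAt (fun r : ℝ => 1 + r ^ 2) (2 * r) r := by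
      simpa using (hasDerivAt_pow 2 r).const_add 1
    have h2 := h1.rpow_const (p := -s) (Or.inl (hH r).ne')
    have h3 := (hasDerivAt_pow k r).mul h2
    refine h3.congr_deriv ?_
    have e1 : (1 + r ^ 2) ^ (-s - 1) * (1 + r ^ 2) = (1 + r ^ 2) ^ (-s) := by
      rw [← Real.rpow_add_one (hH r).ne']; ring_nf
    have e2 : (k : ℝ) * r ^ (k - 1) = r ^ k * (k / r) := by
      rcases Nat.eq_zero_or_pos k with h0 | h0
      · subst h0; simp
      · obtain ⟨j, rfl⟩ := Nat.exists_eq_succ_of_ne_zero h0.ne'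
        simp only [Nat.succ_eq_add_one, Nat.add_sub_cancel, pow_succ]
        field_simp
    simp only [hP]
    rw [e2]
    have e3 : (1 + r ^ 2) ^ (-s - 1) = (1 + r ^ 2) ^ (-s) / (1 + r ^ 2) := by
      rw [← e1]; field_simp [(hH r).ne']
    rw [e3]
    ring
  set F : ℝ → ℝ := fun r => g r ^ 2 * (P r * AA b ρ r) with hF
  have hne : ∀ r, 0 < r → r ≠ r0 → r ^ 2 - ρ ≠ 0 := by
    intro r hr hrr h
    apply hrr
    have : r ^ 2 = r0 ^ 2 := by rw [hr0s]; linarith
    exact (sq_eq_sq₀ hr.le hr0p.le).1 this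
  have hFd : ∀ r, 0 < r → r ≠ r0 → HasDerivAt F (2 * g r * deriv f r * (P r * AA b ρ r) +
      g r ^ 2 * (P r * (k / r - 2 * s * r / (1 + r ^ 2)) * AA b ρ r + P r * AA' b ρ r)) r := by
    intro r hr hrr
    have h1 := ((hgd r).pow 2).mul ((hPd r hr).mul (AA_deriv b ρ r (hne r hr hrr)))
    refine h1.congr_deriv ?_
    simp
  -- continuity of `F` at `r0`
  have hFr0 : F r0 = 0 := by simp [hF, hg]
  have hFc0 : ContinuousAt F r0 := by
    rw [continuousAt_iff_punctured_nhds, hFr0]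
    have hsl : Tendsto (fun r => g r / (r - r0)) (𝓝[≠] r0) (𝓝 (deriv f r0)) := by
      have := (hasDerivAt_iff_tendsto_slope.1 (hgd r0))
      refine this.congr' ?_
      filter_upwards [self_mem_nhdsWithin] with r hr
      rw [slope_def_field]
      simp [hg]
    have hg0 : Tendsto g (𝓝[≠] r0) (𝓝 0) := by
      have : Tendsto g (𝓝 r0) (𝓝 (g r0)) := hgc.tendsto r0
      have h0 : g r0 = 0 := by simp [hg]
      rw [h0] at this
      exact this.mono_left nhdsWithin_le_nhds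
    have hc1 : Tendsto (fun r : ℝ => 2 * r * P r / (r + r0)) (𝓝[≠] r0)
        (𝓝 (2 * r0 * P r0 / (r0 + r0))) := by
      have : ContinuousAt (fun r : ℝ => 2 * r * P r / (r + r0)) r0 := by
        refine ContinuousAt.div ?_ ?_ (by positivity)
        · exact ((continuous_const.mul continuous_id).mul hPc).continuousAt
        · fun_prop
      exact this.tendsto.mono_left nhdsWithin_le_nhds
    have hc2 : Tendsto (fun r : ℝ => 2 * r * P r * ((b - 1) / (1 + r ^ 2))) (𝓝[≠] r0)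
        (𝓝 (2 * r0 * P r0 * ((b - 1) / (1 + r0 ^ 2)))) := by
      have : Continuous (fun r : ℝ => 2 * r * P r * ((b - 1) / (1 + r ^ 2))) := by
        refine ((continuous_const.mul continuous_id).mul hPc).mul ?_
        exact continuous_const.div (by fun_prop) fun r => (hH r).ne'
      exact (this.tendsto r0).mono_left nhdsWithin_le_nhds
    have hlim := ((hg0.mul hsl).mul hc1).add ((hg0.mul hg0).mul hc2)
    simp only [zero_mul, add_zero] at hlim
    refine hlim.congr' ?_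
    have hpos : ∀ᶠ r in 𝓝[≠] r0, 0 < r :=
      nhdsWithin_le_nhds (lt_mem_nhds hr0p)
    filter_upwards [self_mem_nhdsWithin, hpos] with r hr hrp
    have hrr : r - r0 ≠ 0 := sub_ne_zero.2 hr
    have hrr2 : r + r0 ≠ 0 := by positivity
    have e1 : r ^ 2 - ρ = (r - r0) * (r + r0) := by rw [← hr0s]; ring
    simp only [hF, AA, e1]
    have := (hH r).ne'
    field_simp
    ring
  have hFcont : ∀ r, 0 ≤ r → ContinuousAt F r := by
    intro r hr
    by_cases h : r = r0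
    · rw [h]; exact hFc0
    rcases hr.eq_or_lt with h0 | h0
    · rw [← h0]
      have hAc : ContinuousAt (AA b ρ) 0 := (AA_deriv b ρ 0 (by simp [hρ.ne'])).continuousAt
      exact (hgc.continuousAt.pow 2).mul (hPc.continuousAt.mul hAc)
    · exact (hFd r h0 h).continuousAt
  set D : ℝ → ℝ := fun r => r ^ k * (1 + r ^ 2) ^ (-s) * (deriv f r) ^ 2 -
    C * (r ^ k * (1 + r ^ 2) ^ (-s - 1) * (f r - f r0) ^ 2) with hD
  have hDi : IntegrableOn D (Ioi 0) := hi1.sub (hi2.const_mul C)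
  have hdc : Continuous (deriv f) := hf.continuous_deriv (by norm_num)
  have hDc : Continuous D := by
    refine Continuous.sub ?_ ?_
    · exact ((continuous_pow k).mul (hHc _)).mul (hdc.pow 2)
    · exact continuous_const.mul (((continuous_pow k).mul (hHc _)).mul
        ((hf.continuous.sub continuous_const).pow 2))
  have hle : ∀ r, 0 < r → r ≠ r0 → 2 * g r * deriv f r * (P r * AA b ρ r) +
      g r ^ 2 * (P r * (k / r - 2 * s * r / (1 + r ^ 2)) * AA b ρ r + P r * AA' b ρ r) ≤ D r := by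
    intro r hr hrr
    have h1 := hR r hr (sub_ne_zero.1 (hne r hr hrr))
    have hP0 : 0 ≤ P r := by
      have := (hH r).le
      simp only [hP]; positivity
    have e3 : (1 + r ^ 2) ^ (-s - 1) = (1 + r ^ 2) ^ (-s) / (1 + r ^ 2) := by
      have e1 : (1 + r ^ 2) ^ (-s - 1) * (1 + r ^ 2) = (1 + r ^ 2) ^ (-s) := by
        rw [← Real.rpow_add_one (hH r).ne']; ring_nf
      rw [← e1]; field_simp [(hH r).ne']
    have e4 : D r = P r * (deriv f r) ^ 2 - C / (1 + r ^ 2) * P r * g r ^ 2 := by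
      simp only [hD, hP, hg]
      rw [e3]; ring
    rw [e4]
    have h2 : 0 ≤ P r * (deriv f r - g r * AA b ρ r) ^ 2 := mul_nonneg hP0 (sq_nonneg _)
    have h3 := mul_le_mul_of_nonneg_left h1 (mul_nonneg hP0 (sq_nonneg (g r)))
    nlinarith [h2, h3]
  have hint : ∀ a b' : ℝ, IntegrableOn D (Icc a b') := fun a b' =>
    (hDc.continuousOn).integrableOn_Icc
  have part1 : 0 ≤ ∫ r in (0:ℝ)..r0, D r := by
    have h1 := intervalIntegral.sub_le_integral_of_hasDeriv_right_of_le (g := F) (a := 0) (b := r0)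
      hr0p.le (fun r hr => (hFcont r hr.1).continuousWithinAt)
      (fun r hr => (hFd r hr.1 hr.2.ne).hasDerivWithinAt) (hint _ _)
      (fun r hr => hle r hr.1 hr.2.ne)
    have h2 : F 0 = 0 := by simp [hF, AA]
    rw [hFr0, h2] at h1
    linarith
  have part2 : ∀ R, r0 ≤ R → 0 ≤ ∫ r in r0..R, D r := by
    intro R hRr
    rcases hRr.eq_or_lt with h0 | h0
    · rw [← h0]; simp
    have h1 := intervalIntegral.sub_le_integral_of_hasDeriv_right_of_le (g := F) (a := r0) (b := R)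
      hRr (fun r hr => (hFcont r (hr0p.le.trans hr.1)).continuousWithinAt)
      (fun r hr => (hFd r (hr0p.trans hr.1) hr.1.ne').hasDerivWithinAt) (hint _ _)
      (fun r hr => hle r (hr0p.trans hr.1) hr.1.ne')
    have h2 : 0 ≤ F R := by
      have hRp : 0 < R := hr0p.trans h0
      have hR2 : 0 < R ^ 2 - ρ := by
        rw [← hr0s]; nlinarith
      have hA : 0 ≤ AA b ρ R := by
        unfold AA
        refine mul_nonneg (by positivity) ?_
        have h3 : 1 / (1 + R ^ 2) ≤ 1 / (R ^ 2 - ρ) :=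
          one_div_le_one_div_of_le hR2 (by linarith)
        have h4 : (b - 1) / (1 + R ^ 2) = b / (1 + R ^ 2) - 1 / (1 + R ^ 2) := by ring
        have h5 : 0 ≤ b / (1 + R ^ 2) := by have := hH R; positivity
        rw [h4]; linarith
      have hPR : 0 ≤ P R := by
        have := (hH R).le
        simp only [hP]; positivity
      simp only [hF]; positivity
    rw [hFr0] at h1
    linarith
  have h3 : 0 ≤ ∫ r in Ioi r0, D r := by
    have hDi' : IntegrableOn D (Ioi r0) := hDi.mono_set (Ioi_subset_Ioi hr0p.le)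
    have := intervalIntegral_tendsto_integral_Ioi r0 hDi' tendsto_id
    refine ge_of_tendsto this ?_
    filter_upwards [eventually_ge_atTop r0] with R hRr
    exact part2 R hRr
  have h4 : ∫ r in Ioi (0:ℝ), D r = (∫ r in (0:ℝ)..r0, D r) + ∫ r in Ioi r0, D r := by
    rw [intervalIntegral.integral_of_le hr0p.le, ← setIntegral_union]
    · rw [Ioc_union_Ioi_eq_Ioi hr0p.le]
    · rw [Set.disjoint_left]
      intro x hx hx2
      exact absurd hx.2 (not_le.2 hx2)
    · exact measurableSet_Ioi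
    · exact hDi.mono_set Ioc_subset_Ioi_self
    · exact hDi.mono_set (Ioi_subset_Ioi hr0p.le)
  have h5 : ∫ r in Ioi (0:ℝ), D r = (∫ r in Ioi (0:ℝ), r ^ k * (1 + r ^ 2) ^ (-s) * (deriv f r) ^ 2) -
      C * ∫ r in Ioi (0:ℝ), r ^ k * (1 + r ^ 2) ^ (-s - 1) * (f r - f r0) ^ 2 := by
    rw [integral_sub hi1 (hi2.const_mul C), integral_const_mul]
  have h6 : 0 ≤ ∫ r in Ioi (0:ℝ), D r := by rw [h4]; linarith
  rw [h5] at h6
  linarith

end Pool.Agent.Q84.WH
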