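import Pool.Agent.Q84.WH.OneDim

/-!
# The inequality for radial functions in `k + 1` dimensions
-/

set_option autoImplicit false

open MeasureTheory Set Filter Topology

namespace Pool.Agent.Q84.WH

theorem int_hw {n : ℕ} (a : ℝ) (ha : (n : ℝ) < 2 * a) : Integrable (fun x : E n => hw x ^ (-a)) := by
  have h := integrable_rpow_neg_one_add_norm_sq (E := E n) (μ := volume) (r := 2 * a)
    (by simpa using ha)
  refine h.congr (Eventually.of_forall fun x => ?_)
  simp only [hw]
  congr 1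
  ring

theorem radial_ineq (k : ℕ) (s b ρ C : ℝ) (hρ : 0 < ρ) (hb0 : 0 ≤ b) (hR : Ric k s b ρ C)
    (hs : (k : ℝ) - 1 < 2 * s) {U : E (k + 1) → ℝ} (hU : ContDiff ℝ 1 U)
    (hUs : HasCompactSupport U) (hrad : ∀ x y, ‖x‖ = ‖y‖ → U x = U y) :
    ∃ c, C * ∫ x, hw x ^ (-s - 1) * (U x - c) ^ 2 ≤ ∫ x, hw x ^ (-s) * ‖fderiv ℝ U x‖ ^ 2 := by
  set e : E (k + 1) := EuclideanSpace.single 0 1 with he
  have hen : ‖e‖ = 1 := by simp [he]
  set f : ℝ → ℝ := fun r => U (r • e) with hf
  have hfc : ContDiff ℝ 1 f := hU.comp (contDiff_id.smul contDiff_const)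
  have hUf : ∀ x, U x = f ‖x‖ := by
    intro x
    refine hrad _ _ ?_
    rw [norm_smul, hen, mul_one, norm_norm]
  set c : ℝ := f √ρ with hc
  refine ⟨c, ?_⟩
  have hfr : Module.finrank ℝ (E (k + 1)) - 1 = k := by simp
  have hnt : Nontrivial (E (k + 1)) := by
    refine ⟨⟨e, 0, fun h => ?_⟩⟩
    rw [h, norm_zero] at hen
    exact one_ne_zero hen.symm
  have hUc : Continuous U := hU.continuous
  -- the weighted square is integrable
  obtain ⟨M, hM⟩ : ∃ M, ∀ x, |U x| ≤ M := by
    obtain ⟨M, hM⟩ := hUs.exists_bound_of_continuous hUc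
    exact ⟨M, fun x => by simpa using hM x⟩
  have hi : Integrable (fun x : E (k + 1) => hw x ^ (-s - 1) * (U x - c) ^ 2) := by
    have h1 : Integrable (fun x : E (k + 1) => hw x ^ (-s - 1)) := by
      have := int_hw (n := k + 1) (s + 1) (by push_cast; linarith)
      refine this.congr (Eventually.of_forall fun x => ?_)
      simp only
      congr 1
      ring
    have h2 : Integrable (fun x : E (k + 1) => (U x - c) ^ 2 * hw x ^ (-s - 1)) := by
      refine h1.bdd_mul (c := (M + |c|) ^ 2) ?_ ?_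
      · exact ((hUc.sub continuous_const).pow 2).aestronglyMeasurable
      · refine Eventually.of_forall fun x => ?_
        rw [norm_pow]
        refine pow_le_pow_left₀ (norm_nonneg _) ?_ 2
        refine (norm_sub_le _ _).trans ?_
        exact add_le_add (hM x) (le_of_eq rfl)
    exact h2.congr (Eventually.of_forall fun x => by simp only; ring)
  have hdc : Continuous (deriv f) := hfc.continuous_deriv (by norm_num)
  have hfd : ∀ r, HasDerivAt f (deriv f r) r := fun r =>
    (hfc.differentiable (by norm_num) r).hasDerivAt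
  -- bound of the derivative
  have hbd : ∀ x : E (k + 1), x ≠ 0 → (deriv f ‖x‖) ^ 2 ≤ ‖fderiv ℝ U x‖ ^ 2 := by
    intro x hx
    have hxn : 0 < ‖x‖ := norm_pos_iff.2 hx
    set v : E (k + 1) := ‖x‖⁻¹ • x with hv
    have hvn : ‖v‖ = 1 := by
      rw [hv, norm_smul, norm_inv, norm_norm, inv_mul_cancel₀ hxn.ne']
    have hxv : ‖x‖ • v = x := by
      rw [hv, smul_smul, mul_inv_cancel₀ hxn.ne', one_smul]
    have h1 : HasDerivAt (fun t : ℝ => U (t • v)) (fderiv ℝ U x v) ‖x‖ := by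
      have h2 : HasFDerivAt U (fderiv ℝ U x) (‖x‖ • v) := by
        rw [hxv]; exact (hU.differentiable (by norm_num) x).hasFDerivAt
      have h3 : HasDerivAt (fun t : ℝ => t • v) v ‖x‖ := by
        simpa using (hasDerivAt_id ‖x‖).smul_const v
      exact h2.comp_hasDerivAt _ h3
    have h2 : HasDerivAt f (fderiv ℝ U x v) ‖x‖ := by
      refine h1.congr_of_eventuallyEq ?_
      filter_upwards [lt_mem_nhds hxn] with t ht
      refine hrad _ _ ?_
      rw [norm_smul, norm_smul, hen, hvn]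
    rw [h2.deriv]
    have h3 := (fderiv ℝ U x).le_opNorm v
    rw [hvn, mul_one] at h3
    rw [← sq_abs]
    exact pow_le_pow_left₀ (abs_nonneg _) (by simpa using h3) 2
  have hEi : Integrable (fun x : E (k + 1) => hw x ^ (-s) * ‖fderiv ℝ U x‖ ^ 2) :=
    int_mul (cont_hwr _) ((hU.continuous_fderiv (by norm_num)).norm.pow 2) (nsq_supp hUs)
  have hne0 : ∀ᵐ x : E (k + 1), x ≠ 0 := by
    have : (volume : Measure (E (k + 1))) {0} = 0 := by simp
    exact compl_mem_ae_iff.2 this
  have hEi2 : Integrable (fun x : E (k + 1) => hw x ^ (-s) * (deriv f ‖x‖) ^ 2) := by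
    refine hEi.mono' ?_ ?_
    · exact ((cont_hwr _).mul ((hdc.comp continuous_norm).pow 2)).aestronglyMeasurable
    · filter_upwards [hne0] with x hx
      have h0 : 0 ≤ hw x ^ (-s) := Real.rpow_nonneg (hw_pos x).le _
      rw [Real.norm_of_nonneg (by positivity)]
      exact mul_le_mul_of_nonneg_left (hbd x hx) h0
  have j1 := (integrable_fun_norm_addHaar (volume : Measure (E (k + 1)))
    (f := fun r : ℝ => (1 + r ^ 2) ^ (-s) * (deriv f r) ^ 2)).1 hEi2
  have hi' : Integrable (fun x : E (k + 1) => (fun r : ℝ => (1 + r ^ 2) ^ (-s - 1) *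
      (f r - c) ^ 2) ‖x‖) := by
    refine hi.congr (Eventually.of_forall fun x => ?_)
    simp only [hUf x, hw]
  have j2 := (integrable_fun_norm_addHaar (volume : Measure (E (k + 1)))
    (f := fun r : ℝ => (1 + r ^ 2) ^ (-s - 1) * (f r - c) ^ 2)).1 hi'
  rw [hfr] at j1 j2
  simp only [smul_eq_mul] at j1 j2
  have key := one_dim k s b ρ C hρ hb0 hR hfc
    (j1.congr_fun (fun r _ => by ring) measurableSet_Ioi)
    (j2.congr_fun (fun r _ => by ring) measurableSet_Ioi)
  have e1 := integral_fun_norm_addHaar (volume : Measure (E (k + 1)))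
    (fun r : ℝ => (1 + r ^ 2) ^ (-s) * (deriv f r) ^ 2)
  have e2 := integral_fun_norm_addHaar (volume : Measure (E (k + 1)))
    (fun r : ℝ => (1 + r ^ 2) ^ (-s - 1) * (f r - c) ^ 2)
  rw [hfr] at e1 e2
  simp only [smul_eq_mul, nsmul_eq_mul, ← mul_assoc] at e1 e2
  have e3 : ∫ x : E (k + 1), hw x ^ (-s - 1) * (U x - c) ^ 2 =
      ∫ x : E (k + 1), (1 + ‖x‖ ^ 2) ^ (-s - 1) * (f ‖x‖ - c) ^ 2 := by
    refine integral_congr_ae (Eventually.of_forall fun x => ?_)
    simp only [hUf x, hw]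
  have e4 : ∫ x : E (k + 1), (1 + ‖x‖ ^ 2) ^ (-s) * (deriv f ‖x‖) ^ 2 ≤
      ∫ x : E (k + 1), hw x ^ (-s) * ‖fderiv ℝ U x‖ ^ 2 := by
    refine integral_mono_ae hEi2 hEi ?_
    filter_upwards [hne0] with x hx
    have h0 : 0 ≤ hw x ^ (-s) := Real.rpow_nonneg (hw_pos x).le _
    exact mul_le_mul_of_nonneg_left (hbd x hx) h0
  refine le_trans ?_ e4
  rw [e3, e1, e2]
  have h0 : 0 ≤ ((Module.finrank ℝ (E (k + 1)) : ℕ) : ℝ) *
      (volume : Measure (E (k + 1))).real (Metric.ball 0 1) := by positivity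
  have := mul_le_mul_of_nonneg_left key h0
  calc _ = (((Module.finrank ℝ (E (k + 1)) : ℕ) : ℝ) *
      (volume : Measure (E (k + 1))).real (Metric.ball 0 1)) *
      (C * ∫ (r : ℝ) in Ioi 0, r ^ k * (1 + r ^ 2) ^ (-s - 1) * (f r - f √ρ) ^ 2) := by ring
    _ ≤ _ := this
    _ = _ := rfl

end Pool.Agent.Q84.WH
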