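import Pool.Agent.Q84.WH.Rad

/-!
# Upper bounds: cutoffs of test functions
-/

set_option autoImplicit false

open MeasureTheory Set Filter Topology
open scoped RealInnerProductSpace ContDiff

namespace Pool.Agent.Q84.WH

variable {n : ℕ}

/-- a fixed bump function -/
noncomputable def bp (n : ℕ) : ContDiffBump (0 : E n) := ⟨1, 2, one_pos, one_lt_two⟩

/-- the cutoff at radius `k + 1` -/
noncomputable def chi (k : ℕ) (x : E n) : ℝ := bp n (((k : ℝ) + 1)⁻¹ • x)

theorem chi_cd (k : ℕ) : ContDiff ℝ ∞ (chi k : E n → ℝ) :=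
  ((bp n).contDiff (n := (⊤ : ℕ∞))).comp (contDiff_id.const_smul _)

theorem chi_one (k : ℕ) (x : E n) (hx : ‖x‖ ≤ k + 1) : chi k x = 1 := by
  unfold chi
  apply (bp n).one_of_mem_closedBall
  rw [mem_closedBall_zero_iff, norm_smul, norm_inv]
  have h : (0:ℝ) < (k : ℝ) + 1 := by positivity
  rw [Real.norm_of_nonneg h.le]
  change _ ≤ (1:ℝ)
  rw [inv_mul_le_iff₀ h]; linarith

theorem chi_zero (k : ℕ) (x : E n) (hx : 2 * ((k : ℝ) + 1) ≤ ‖x‖) : chi k x = 0 := by
  unfold chi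
  apply (bp n).zero_of_le_dist
  rw [dist_zero_right, norm_smul, norm_inv]
  have h : (0:ℝ) < (k : ℝ) + 1 := by positivity
  rw [Real.norm_of_nonneg h.le]
  change (2:ℝ) ≤ _
  rw [le_inv_mul_iff₀ h]; linarith

theorem chi_cs (k : ℕ) : HasCompactSupport (chi k : E n → ℝ) := by
  refine HasCompactSupport.intro (isCompact_closedBall (0 : E n) (2 * ((k : ℝ) + 1))) fun x hx => ?_
  refine chi_zero k x ?_
  rw [mem_closedBall_zero_iff, not_le] at hx
  exact hx.le

theorem chi_nonneg (k : ℕ) (x : E n) : 0 ≤ chi k x := (bp n).nonneg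

theorem chi_le (k : ℕ) (x : E n) : chi k x ≤ 1 := (bp n).le_one

/-- bound of the derivative of the cutoff -/
theorem chi_fd : ∃ M : ℝ, 0 ≤ M ∧ ∀ (k : ℕ) (x : E n), hw x * ‖fderiv ℝ (chi k) x‖ ^ 2 ≤ M := by
  have hcd : ContDiff ℝ 1 (bp n : E n → ℝ) := (bp n).contDiff
  have hd : Continuous (fderiv ℝ (bp n : E n → ℝ)) := hcd.continuous_fderiv (by norm_num)
  have hdc : HasCompactSupport (fderiv ℝ (bp n : E n → ℝ)) := (bp n).hasCompactSupport.fderiv ℝ
  obtain ⟨M, hM⟩ := hdc.exists_bound_of_continuous hd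
  have hM0 : 0 ≤ M := (norm_nonneg _).trans (hM 0)
  refine ⟨5 * M ^ 2, by positivity, fun k x => ?_⟩
  have h : (0:ℝ) < (k : ℝ) + 1 := by positivity
  have h1 : (1:ℝ) ≤ (k : ℝ) + 1 := by linarith [(Nat.cast_nonneg k : (0:ℝ) ≤ k)]
  by_cases hx : ‖x‖ ≤ 2 * ((k : ℝ) + 1)
  · have e1 : HasFDerivAt (chi k : E n → ℝ) ((fderiv ℝ (bp n : E n → ℝ) (((k : ℝ) + 1)⁻¹ • x)).comp
        (((k : ℝ) + 1)⁻¹ • ContinuousLinearMap.id ℝ (E n))) x := by
      have e2 : HasFDerivAt (bp n : E n → ℝ) (fderiv ℝ (bp n : E n → ℝ) (((k : ℝ) + 1)⁻¹ • x))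
          (((k : ℝ) + 1)⁻¹ • x) := (hcd.differentiable (by norm_num) _).hasFDerivAt
      have e5 : HasFDerivAt (fun y : E n => ((k : ℝ) + 1)⁻¹ • y)
          (((k : ℝ) + 1)⁻¹ • ContinuousLinearMap.id ℝ (E n)) x :=
        (hasFDerivAt_id (𝕜 := ℝ) x).const_smul (((k : ℝ) + 1)⁻¹)
      exact e2.comp x e5
    rw [e1.fderiv]
    have e3 : ‖(fderiv ℝ (bp n : E n → ℝ) (((k : ℝ) + 1)⁻¹ • x)).comp
        (((k : ℝ) + 1)⁻¹ • ContinuousLinearMap.id ℝ (E n))‖ ≤ M * ((k : ℝ) + 1)⁻¹ := by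
      refine (ContinuousLinearMap.opNorm_comp_le _ _).trans ?_
      refine mul_le_mul (hM _) ?_ (norm_nonneg _) hM0
      rw [norm_smul, norm_inv, Real.norm_of_nonneg h.le]
      calc ((k : ℝ) + 1)⁻¹ * ‖ContinuousLinearMap.id ℝ (E n)‖ ≤ ((k : ℝ) + 1)⁻¹ * 1 :=
            mul_le_mul_of_nonneg_left ContinuousLinearMap.norm_id_le (inv_nonneg.2 h.le)
        _ = _ := mul_one _
    have e4 : hw x ≤ 5 * ((k : ℝ) + 1) ^ 2 := by
      unfold hw
      have := pow_le_pow_left₀ (norm_nonneg x) hx 2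
      nlinarith [one_le_pow₀ h1 (n := 2)]
    calc hw x * _ ^ 2 ≤ (5 * ((k : ℝ) + 1) ^ 2) * (M * ((k : ℝ) + 1)⁻¹) ^ 2 :=
          mul_le_mul e4 (pow_le_pow_left₀ (norm_nonneg _) e3 2) (by positivity) (by positivity)
      _ = 5 * M ^ 2 := by field_simp
  · push Not at hx
    have e1 : fderiv ℝ (chi k : E n → ℝ) x = 0 := by
      have : (chi k : E n → ℝ) =ᶠ[𝓝 x] fun _ => 0 := by
        have ho : IsOpen {y : E n | 2 * ((k : ℝ) + 1) < ‖y‖} :=
          isOpen_lt continuous_const continuous_norm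
        filter_upwards [ho.mem_nhds hx] with y hy
        exact chi_zero k y (le_of_lt hy)
      rw [this.fderiv_eq]
      simp
    rw [e1, norm_zero]
    have : (0:ℝ) ≤ 5 * M ^ 2 := by positivity
    simpa using this

/-- the test functions: the cutoffs of `φ`, corrected by a multiple of a fixed function -/
theorem tests (α : ℝ) {φ : E n → ℝ} (hφ : ContDiff ℝ ∞ φ)
    (hE : Integrable (fun x => hw x ^ α * ‖fderiv ℝ φ x‖ ^ 2))
    (hN : Integrable (fun x => hw x ^ (α - 1) * φ x ^ 2)) (δ : ℕ → ℝ)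
    (hδ : Tendsto δ atTop (𝓝 0)) :
    Tendsto (fun k => ∫ x, hw x ^ α * ‖fderiv ℝ (fun x => chi k x * φ x - δ k * chi 0 x) x‖ ^ 2)
      atTop (𝓝 (∫ x, hw x ^ α * ‖fderiv ℝ φ x‖ ^ 2)) ∧
    Tendsto (fun k => ∫ x, hw x ^ (α - 1) * (chi k x * φ x - δ k * chi 0 x) ^ 2)
      atTop (𝓝 (∫ x, hw x ^ (α - 1) * φ x ^ 2)) := by
  obtain ⟨M, hM0, hM⟩ := chi_fd (n := n)
  have hδb : ∃ Δ, 0 ≤ Δ ∧ ∀ k, δ k ^ 2 ≤ Δ := by
    have h1 : Tendsto (fun k => δ k ^ 2) atTop (𝓝 (0 ^ 2)) := hδ.pow 2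
    obtain ⟨Δ, hΔ⟩ := h1.bddAbove_range
    refine ⟨Δ, ?_, fun k => hΔ ⟨k, rfl⟩⟩
    exact (sq_nonneg (δ 0)).trans (hΔ ⟨0, rfl⟩)
  obtain ⟨Δ, hΔ0, hΔ⟩ := hδb
  have hφ1 : Differentiable ℝ φ := hφ.differentiable (by simp)
  have hχ1 : ∀ k, Differentiable ℝ (chi k : E n → ℝ) := fun k =>
    (chi_cd k).differentiable (by simp)
  have hχ0c : ContDiff ℝ 1 (chi 0 : E n → ℝ) := (chi_cd 0).of_le (by exact_mod_cast le_top)
  have hχ0E : Integrable (fun x : E n => hw x ^ α * ‖fderiv ℝ (chi 0) x‖ ^ 2) :=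
    int_mul (cont_hwr _) ((hχ0c.continuous_fderiv (by norm_num)).norm.pow 2) (nsq_supp (chi_cs 0))
  have hχ0N : Integrable (fun x : E n => hw x ^ (α - 1) * (chi 0 x) ^ 2) :=
    int_mul (cont_hwr _) (hχ0c.continuous.pow 2) (sq_supp (chi_cs 0))
  have hcdk : ∀ k, ContDiff ℝ 1 (fun x : E n => chi k x * φ x - δ k * chi 0 x) := fun k =>
    ((((chi_cd k).mul hφ).sub (contDiff_const.mul (chi_cd 0))).of_le (by exact_mod_cast le_top))
  have hfd : ∀ k x, fderiv ℝ (fun x : E n => chi k x * φ x - δ k * chi 0 x) x =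
      chi k x • fderiv ℝ φ x + φ x • fderiv ℝ (chi k) x - δ k • fderiv ℝ (chi 0) x := by
    intro k x
    have e1 := ((hχ1 k x).hasFDerivAt.mul (hφ1 x).hasFDerivAt).sub
      ((hχ1 0 x).hasFDerivAt.const_mul (δ k))
    exact e1.fderiv
  -- eventually everything is constant
  have hev : ∀ x : E n, ∀ᶠ k : ℕ in atTop, chi k x = 1 ∧ fderiv ℝ (chi k : E n → ℝ) x = 0 := by
    intro x
    obtain ⟨K, hK⟩ := exists_nat_gt ‖x‖
    filter_upwards [eventually_ge_atTop K] with k hk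
    have hk1 : ‖x‖ < k + 1 := by
      have : (K : ℝ) ≤ k := by exact_mod_cast hk
      linarith
    refine ⟨chi_one k x hk1.le, ?_⟩
    have : (chi k : E n → ℝ) =ᶠ[𝓝 x] fun _ => 1 := by
      have ho : IsOpen {y : E n | ‖y‖ < (k : ℝ) + 1} := isOpen_lt continuous_norm continuous_const
      filter_upwards [ho.mem_nhds hk1] with y hy
      exact chi_one k y (le_of_lt hy)
    rw [this.fderiv_eq]
    simp
  constructor
  · refine tendsto_integral_of_dominated_convergence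
      (fun x => 3 * (hw x ^ α * ‖fderiv ℝ φ x‖ ^ 2) + 3 * M * (hw x ^ (α - 1) * φ x ^ 2) +
        3 * Δ * (hw x ^ α * ‖fderiv ℝ (chi 0) x‖ ^ 2)) ?_ ?_ ?_ ?_
    · intro k
      exact ((cont_hwr _).mul (((hcdk k).continuous_fderiv (by norm_num)).norm.pow 2)).aestronglyMeasurable
    · exact ((hE.const_mul 3).add (hN.const_mul (3 * M))).add (hχ0E.const_mul (3 * Δ))
    · intro k
      refine Eventually.of_forall fun x => ?_
      have h0 : 0 ≤ hw x ^ α := Real.rpow_nonneg (hw_pos x).le _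
      rw [Real.norm_of_nonneg (mul_nonneg h0 (sq_nonneg _)), hfd]
      have e1 : ‖chi k x • fderiv ℝ φ x + φ x • fderiv ℝ (chi k) x - δ k • fderiv ℝ (chi 0) x‖ ≤
          ‖fderiv ℝ φ x‖ + |φ x| * ‖fderiv ℝ (chi k) x‖ + |δ k| * ‖fderiv ℝ (chi 0 : E n → ℝ) x‖ := by
        refine (norm_sub_le _ _).trans ?_
        rw [norm_smul (δ k), Real.norm_eq_abs (δ k)]
        refine add_le_add ?_ le_rfl
        refine (norm_add_le _ _).trans ?_
        rw [norm_smul, norm_smul, Real.norm_eq_abs (φ x)]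
        refine add_le_add ?_ le_rfl
        calc ‖chi k x‖ * ‖fderiv ℝ φ x‖ ≤ 1 * ‖fderiv ℝ φ x‖ := by
              refine mul_le_mul_of_nonneg_right ?_ (norm_nonneg _)
              rw [Real.norm_of_nonneg (chi_nonneg k x)]; exact chi_le k x
          _ = _ := one_mul _
      have e2 : ‖chi k x • fderiv ℝ φ x + φ x • fderiv ℝ (chi k) x - δ k • fderiv ℝ (chi 0) x‖ ^ 2 ≤
          3 * (‖fderiv ℝ φ x‖ ^ 2 + φ x ^ 2 * ‖fderiv ℝ (chi k) x‖ ^ 2 +
            δ k ^ 2 * ‖fderiv ℝ (chi 0 : E n → ℝ) x‖ ^ 2) := by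
        refine (pow_le_pow_left₀ (norm_nonneg _) e1 2).trans ?_
        rw [← sq_abs (φ x), ← sq_abs (δ k)]
        nlinarith [sq_nonneg (‖fderiv ℝ φ x‖ - |φ x| * ‖fderiv ℝ (chi k) x‖),
          sq_nonneg (‖fderiv ℝ φ x‖ - |δ k| * ‖fderiv ℝ (chi 0 : E n → ℝ) x‖),
          sq_nonneg (|φ x| * ‖fderiv ℝ (chi k) x‖ - |δ k| * ‖fderiv ℝ (chi 0 : E n → ℝ) x‖)]
      have e3 := mul_le_mul_of_nonneg_left e2 h0
      refine e3.trans ?_
      have e4 : hw x ^ α = hw x ^ (α - 1) * hw x := (hw_mul α x).symm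
      have h1 : 0 ≤ hw x ^ (α - 1) := Real.rpow_nonneg (hw_pos x).le _
      have e5 : hw x ^ α * (φ x ^ 2 * ‖fderiv ℝ (chi k) x‖ ^ 2) ≤ M * (hw x ^ (α - 1) * φ x ^ 2) := by
        have := mul_le_mul_of_nonneg_left (hM k x) (mul_nonneg h1 (sq_nonneg (φ x)))
        rw [e4]
        linarith
      have e6 : hw x ^ α * (δ k ^ 2 * ‖fderiv ℝ (chi 0 : E n → ℝ) x‖ ^ 2) ≤
          Δ * (hw x ^ α * ‖fderiv ℝ (chi 0 : E n → ℝ) x‖ ^ 2) := by
        have := mul_le_mul_of_nonneg_right (hΔ k) (mul_nonneg h0 (sq_nonneg ‖fderiv ℝ (chi 0 : E n → ℝ) x‖))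
        linarith
      linarith
    · refine Eventually.of_forall fun x => ?_
      have h1 : Tendsto (fun k => hw x ^ α * ‖fderiv ℝ φ x - δ k • fderiv ℝ (chi 0) x‖ ^ 2) atTop
          (𝓝 (hw x ^ α * ‖fderiv ℝ φ x - (0:ℝ) • fderiv ℝ (chi 0) x‖ ^ 2)) :=
        ((tendsto_const_nhds.sub (hδ.smul_const _)).norm.pow 2).const_mul _
      rw [zero_smul, sub_zero] at h1
      refine h1.congr' ?_
      filter_upwards [hev x] with k hk
      rw [hfd, hk.1, hk.2]
      simp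
  · refine tendsto_integral_of_dominated_convergence
      (fun x => 2 * (hw x ^ (α - 1) * φ x ^ 2) + 2 * Δ * (hw x ^ (α - 1) * (chi 0 x) ^ 2)) ?_ ?_ ?_ ?_
    · intro k
      exact ((cont_hwr _).mul ((hcdk k).continuous.pow 2)).aestronglyMeasurable
    · exact (hN.const_mul 2).add (hχ0N.const_mul (2 * Δ))
    · intro k
      refine Eventually.of_forall fun x => ?_
      have h1 : 0 ≤ hw x ^ (α - 1) := Real.rpow_nonneg (hw_pos x).le _
      rw [Real.norm_of_nonneg (mul_nonneg h1 (sq_nonneg _))]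
      have e1 : (chi k x * φ x - δ k * chi 0 x) ^ 2 ≤ 2 * φ x ^ 2 + 2 * (Δ * (chi 0 x) ^ 2) := by
        have h2 : (chi k x * φ x) ^ 2 ≤ φ x ^ 2 := by
          rw [mul_pow]
          have : chi k x ^ 2 ≤ 1 := pow_le_one₀ (chi_nonneg k x) (chi_le k x)
          nlinarith [sq_nonneg (φ x)]
        have h3 : (δ k * chi 0 x) ^ 2 ≤ Δ * (chi 0 x) ^ 2 := by
          rw [mul_pow]
          exact mul_le_mul_of_nonneg_right (hΔ k) (sq_nonneg _)
        nlinarith [sq_nonneg (chi k x * φ x + δ k * chi 0 x)]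
      have := mul_le_mul_of_nonneg_left e1 h1
      refine this.trans (le_of_eq ?_)
      ring
    · refine Eventually.of_forall fun x => ?_
      have h1 : Tendsto (fun k => hw x ^ (α - 1) * (φ x - δ k * chi 0 x) ^ 2) atTop
          (𝓝 (hw x ^ (α - 1) * (φ x - 0 * chi 0 x) ^ 2)) :=
        ((tendsto_const_nhds.sub (hδ.mul_const _)).pow 2).const_mul _
      rw [zero_mul, sub_zero] at h1
      refine h1.congr' ?_
      filter_upwards [hev x] with k hk
      rw [hk.1, one_mul]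

/-- a constant `b` for which the inequality holds for all smooth compactly supported functions
(orthogonal to the constants, if `con` holds) -/
def LB (n : ℕ) (α : ℝ) (con : Prop) (b : ℝ) : Prop := ∀ u : E n → ℝ, ContDiff ℝ ∞ u →
  HasCompactSupport u → (con → ∫ x, hw x ^ (α - 1) * u x = 0) →
  b * ∫ x, hw x ^ (α - 1) * u x ^ 2 ≤ ∫ x, hw x ^ α * ‖fderiv ℝ u x‖ ^ 2

theorem chi0_pos (a : ℝ) : 0 < ∫ x : E n, hw x ^ a * chi 0 x := by
  have hi : Integrable (fun x : E n => hw x ^ a * chi 0 x) :=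
    int_mul (cont_hwr _) (chi_cd 0).continuous (chi_cs 0)
  have hc : Continuous (fun x : E n => hw x ^ a * chi 0 x) :=
    (cont_hwr _).mul (chi_cd 0).continuous
  refine hc.integral_pos_of_hasCompactSupport_nonneg_nonzero (chi_cs 0).mul_left
    (fun x => mul_nonneg (Real.rpow_nonneg (hw_pos x).le _) (chi_nonneg 0 x)) (x := 0) ?_
  rw [chi_one 0 0 (by simp)]
  have := Real.rpow_pos_of_pos (hw_pos (0 : E n)) a
  positivity

theorem LB_test {α b : ℝ} {con : Prop} (h : LB n α con b) {φ : E n → ℝ}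
    (hφ : ContDiff ℝ ∞ φ)
    (hE : Integrable (fun x => hw x ^ α * ‖fderiv ℝ φ x‖ ^ 2))
    (hN : Integrable (fun x => hw x ^ (α - 1) * φ x ^ 2))
    (hcon : con → Integrable (fun x => hw x ^ (α - 1) * φ x) ∧ ∫ x, hw x ^ (α - 1) * φ x = 0) :
    b * ∫ x, hw x ^ (α - 1) * φ x ^ 2 ≤ ∫ x, hw x ^ α * ‖fderiv ℝ φ x‖ ^ 2 := by
  classical
  set Z := ∫ x : E n, hw x ^ (α - 1) * chi 0 x with hZ
  have hZp : 0 < Z := chi0_pos _
  set δ : ℕ → ℝ := fun k => if con then (∫ x, hw x ^ (α - 1) * (chi k x * φ x)) / Z else 0 with hδ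
  have hδ0 : Tendsto δ atTop (𝓝 0) := by
    by_cases hc : con
    · obtain ⟨hi, hm⟩ := hcon hc
      have h1 : Tendsto (fun k => ∫ x, hw x ^ (α - 1) * (chi k x * φ x)) atTop
          (𝓝 (∫ x, hw x ^ (α - 1) * φ x)) := by
        refine tendsto_integral_of_dominated_convergence (fun x => ‖hw x ^ (α - 1) * φ x‖) ?_ ?_ ?_ ?_
        · intro k
          exact ((cont_hwr _).mul ((chi_cd k).continuous.mul hφ.continuous)).aestronglyMeasurable
        · exact hi.norm
        · intro k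
          refine Eventually.of_forall fun x => ?_
          rw [norm_mul, norm_mul, norm_mul]
          refine mul_le_mul_of_nonneg_left ?_ (norm_nonneg _)
          calc ‖chi k x‖ * ‖φ x‖ ≤ 1 * ‖φ x‖ := by
                refine mul_le_mul_of_nonneg_right ?_ (norm_nonneg _)
                rw [Real.norm_of_nonneg (chi_nonneg k x)]; exact chi_le k x
            _ = _ := one_mul _
        · refine Eventually.of_forall fun x => ?_
          obtain ⟨K, hK⟩ := exists_nat_gt ‖x‖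
          refine tendsto_const_nhds.congr' ?_
          filter_upwards [eventually_ge_atTop K] with k hk
          have hk1 : ‖x‖ ≤ k + 1 := by
            have : (K : ℝ) ≤ k := by exact_mod_cast hk
            linarith
          rw [chi_one k x hk1, one_mul]
      rw [hm] at h1
      have h2 := h1.div_const Z
      rw [zero_div] at h2
      refine h2.congr fun k => ?_
      simp only [hδ, if_pos hc]
    · have : δ = fun _ => 0 := by
        ext k; simp only [hδ, if_neg hc]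
      rw [this]; exact tendsto_const_nhds
  obtain ⟨t1, t2⟩ := tests α hφ hE hN δ hδ0
  refine le_of_tendsto_of_tendsto (t2.const_mul b) t1 (Eventually.of_forall fun k => ?_)
  refine h _ (((chi_cd k).mul hφ).sub (contDiff_const.mul (chi_cd 0)))
    (((chi_cs k).mul_right).sub ((chi_cs 0).mul_left)) fun hc => ?_
  have i1 : Integrable (fun x : E n => hw x ^ (α - 1) * (chi k x * φ x)) :=
    int_mul (cont_hwr _) ((chi_cd k).continuous.mul hφ.continuous) ((chi_cs k).mul_right)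
  have i2 : Integrable (fun x : E n => hw x ^ (α - 1) * chi 0 x) :=
    int_mul (cont_hwr _) (chi_cd 0).continuous (chi_cs 0)
  have e1 : ∫ x, hw x ^ (α - 1) * (chi k x * φ x - δ k * chi 0 x) =
      (∫ x, hw x ^ (α - 1) * (chi k x * φ x)) - δ k * Z := by
    rw [hZ, ← integral_const_mul, ← integral_sub i1 (i2.const_mul _)]
    refine integral_congr_ae (Eventually.of_forall fun x => ?_)
    simp only; ring
  rw [e1]
  simp only [hδ, if_pos hc]
  field_simp
  ring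

end Pool.Agent.Q84.WH
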